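import Pool.Agent.helper95.FJ.SpecE
import Pool.Agent.helper36.BP.SpecE
import Pool.Agent.helper36.HK.SpecN
import Pool.Agent.helper36.HK.SpecO

/-!
# Project fj (MP_ad8ced_nt, theorem B+), Spec X: from the prime elements in narrow sectors to the theorem

RULES.  File `Pool/Agent/<seat>/FJ/XX.lean`, `import Pool.Agent.helper95.FJ.SpecX`, `namespace Pool.Agent.FJ`, `open Finset Pool.Agent.FI Pool.Agent.BP`,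
`theorem XX (h1 : YY_stmt) ... : XX_stmt`, auxiliary lemmas prefixed `XX_` (private where possible).  Never change this file.  If a statement is wrong tell helper95 at once.
No `convert` / `congr!`, no `native_decide`, no straight double quotes.  Other statements may be used as hypotheses only; the hypotheses of the exact theorem line are enough.

`L = log x`.  Definitions: `tn`, `ck`, `fr`, `ang`, `Fam`, `Gd`, `gg`, `lep` in helper95/FI/SpecM.lean; `PW`, `tl`, `Gw`, `fjk`, `FE` in helper36/BP/Defs.lean; `tr0` in helper24/SK/Spec.lean;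
`cu1`, `cu2`, `Sg` in helper36/HK/SpecN.lean; `cta`, `ff` in helper94/FIP/Spec.lean, `ctp` in helper36/HK/SpecO.lean.
-/

set_option autoImplicit false

open Finset

noncomputable section

namespace Pool.Agent.FJ

open Pool.Agent.FI
open Pool.Agent.BP (PW tl Gw fjk FE SCW_stmt)
open Pool.Agent.SK (tr0)

/-! ## the analytic input (block bp of helper36) -/

open scoped Classical in
/-- **KEY** (block bp of helper36): the nontrivial angular frequencies `≤ x^(1/3-η)` together. -/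
def KEY_stmt : Prop := ∀ η : ℝ, 0 < η → η ≤ 1 / 3 → ∀ A B Kd : ℕ, ∃ x₀ : ℕ, ∀ x : ℕ, x₀ ≤ x → ∀ d : ℕ, Odd d → (d : ℝ) ≤ Real.log x ^ B →
  ∀ ψ : ℤ × ℤ → ℂ, IsRC d ψ → ∀ j i : ℕ, j ≤ 1 → i ≤ 1 → ∀ α : ℝ, 0 ≤ α → α < 2 * Real.pi → (∀ m : ℤ, UInv ψ j (fr α m)) →
  ∀ M : ℕ, (M : ℝ) ≤ (x : ℝ) ^ (1 / 3 - η) → ∀ v δ : ℝ, 1 / Real.log x ^ Kd ≤ δ → δ ≤ 1 → 2 * Real.log x ≤ v - δ → v + δ ≤ Real.log (64 * x ^ 2) →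
  ∑ m ∈ Icc (-(M : ℤ)) M with fr α m ≠ 0, ‖PW (64 * x ^ 2) (tl v δ) (HC ψ j i (fr α m))‖ ≤ x ^ 2 / Real.log x ^ A

/-! ## Fejer instead of the Fourier series -/

/-- **FJK** (medium; the Fejer kernel).  `K fjk K u = ‖∑_{a < K} e(a u)‖²` (the number of the pairs `a, b < K` with `a - b = m` is `K - |m|`), so `fjk K u` is real, nonnegative, at most `K`; for `0 < |u| ≤ 1/2` the geometric sum is at most `2/‖e(u) - 1‖ = 1/|sin(πu)| ≤ 1/(2|u|)`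
(Jordan: `sin(πu) ≥ 2u`; Mathlib `Real.mul_le_sin` or `Real.two_div_pi_mul_le_sin`), so `K fjk ≤ 1/(4u²)`.  The integral over a period: only `m = 0` contributes (`∫ e(mu) = 0` for `m ≠ 0`). -/
def FJK_stmt : Prop := ∀ K : ℕ, 1 ≤ K → Continuous (fjk K) ∧ (∀ u : ℝ, fjk K (u + 1) = fjk K u) ∧ (∀ u : ℝ, fjk K u = ((fjk K u).re : ℂ) ∧ 0 ≤ (fjk K u).re ∧ (fjk K u).re ≤ K) ∧
  (∀ u : ℝ, |u| ≤ 1 / 2 → 4 * K * u ^ 2 * (fjk K u).re ≤ 1) ∧ ∫ u in (-(1 / 2) : ℝ)..(1 / 2), (fjk K u).re = 1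

/-- **FEJ** (medium, long).  From FJK.  `fr α m = (α + 2πm)/(2 lep)`; swapping the finite sum and the integral in `ck`, the sum over `m` is `(1/(2 lep)) ∫_{c-h}^{c+h} tn h c t · exp(iα(y-t)/(2 lep)) · fjk K ((y-t)/(2 lep)) dt`.  Case 1, `|y - c| ≥ 2h`: `tn h c y = 0`, `|y - t| ≥ |y - c|/2`, `u = (y-t)/(2 lep)`,
`|u| ≤ (lep + 1)/(2 lep) ≤ 0.79` (`lep = log (3 + √8) ≥ 1.73`), so `fjk K u ≤ C/(K u²)` (for `|u| > 1/2` use the period, `|u ∓ 1| ≥ 0.21`): the integral is at most `C h/(K (y-c)²)` since `∫ tn = h`, and `(y-c)² ≥ (4/5)(h² + (y-c)²)`.  Case 2, `|y - c| < 2h`: the support of `tn` lies in `[y - lep, y + lep]` (`|y - t| < 3h ≤ 3/2`), and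
`(1/(2 lep)) ∫_{y-lep}^{y+lep} fjk = 1`, so the difference is `(1/(2 lep)) ∫ (tn y - tn t · exp(iα(y-t)/(2 lep))) fjk`, `|tn y - tn t| ≤ |y-t|/h`, `|exp(iθ) - 1| ≤ |θ|`, `h ≤ 1/2`; `∫_{-1/2}^{1/2} |u| fjk K u du ≤ 1/K + (log K)/(2K)` (`fjk ≤ K` for `|u| ≤ 1/K`, `≤ 1/(4Ku²)` beyond); and `h²/(h² + (y-c)²) ≥ 1/5`. -/
def FEJ_stmt : Prop := ∃ C : ℝ, 0 < C ∧ ∀ h c : ℝ, 0 < h → h ≤ c → c + h ≤ 1 → ∀ α : ℝ, 0 ≤ α → α < 2 * Real.pi → ∀ K : ℕ, 1 ≤ K → ∀ y : ℝ, |y| ≤ lep →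
  ‖(tn h c y : ℂ) - ∑ m ∈ Icc (-(K : ℤ)) K, ((1 - |(m : ℝ)| / K : ℝ) : ℂ) * ck h c (fr α m) * Complex.exp (fr α m * y * Complex.I)‖
    ≤ C * (1 + Real.log K) / (h * K) * (h ^ 2 / (h ^ 2 + (y - c) ^ 2))

/-- **SCD** (short, medium).  From SCW.  `h²/(h² + t²) ≤ ∑_{j ≤ J} 4^(1-j) [|t| ≤ 2^j h]` as soon as `|t| ≤ 2^J h` (take the least `j` with `|t| ≤ 2^j h`); choose `J` for the finite set; SCW with `ρ = 2^j h`: `∑_j 4^(1-j) C (2^j h v + √v) ≤ C (8 h v + 6 √v)`. -/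
def SCD_stmt : Prop := ∃ C : ℝ, 0 < C ∧ ∀ (v : ℕ) (c h : ℝ), 1 ≤ v → 0 < h →
  ∑ z ∈ FE v, h ^ 2 / (h ^ 2 + (yy z - c) ^ 2) ≤ C * (h * v + √v)

/-- **GDF** (medium; the expansion; copy of Pool/Agent/helper52/FI/GD1.lean).  From FEJ, SCD, YYB.  For `z ∈ FF u` with `nn z` prime and `w (nn z) ≠ 0` (so `nn z > d` is coprime to `d`): `[2^e d ∣ l] = 2^{-e} ∑_{j ≤ e} (-1)^{jl} · k⁻¹ ∑_t ψ_t(z)`, `[N8 z < 0] = ½ ∑_{i ≤ 1} (-1)^i sgn(N8 z)^i`, and `tn h c (yy z)` by FEJ with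
`α = ang (ψ_t(3,1) (-1)^j)`, error `C (1 + log K)/(hK) · h²/(h² + (yy z - c)²)` for each `z` and each of the `(e+1) k 2` triples `(j, t, i)`; `FF u ⊆ FE u`, SCD with `v = u`, `log (nn z) w(nn z) ≤ log u`. -/
def GDF_stmt : Prop := ∃ C : ℝ, 0 < C ∧ ∀ (d k e : ℕ) (ψ : Fin k → ℤ × ℤ → ℂ), Odd d → e ≤ 1 → Fam d k ψ → ∀ (u : ℕ) (w : ℕ → ℝ), 2 ≤ u →
  (∀ n, 0 ≤ w n) → (∀ n, w n ≤ 1) → (∀ n ≤ d, w n = 0) → ∀ h c : ℝ, 0 < h → h ≤ c → c + h ≤ 1 → ∀ K : ℕ, 1 ≤ K →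
  ‖(Gw u w h c (2 ^ e * d) : ℂ) - 1 / (2 ^ e * k * 2 : ℂ) * ∑ j ∈ range (e + 1), ∑ t : Fin k, ∑ i ∈ range 2, (-1) ^ i *
      ∑ m ∈ Icc (-(K : ℤ)) K, ((1 - |(m : ℝ)| / K : ℝ) : ℂ) * ck h c (fr (ang (ψ t (3, 1) * (-1) ^ j)) m) *
        PW u w (HC (ψ t) j i (fr (ang (ψ t (3, 1) * (-1) ^ j)) m))‖
    ≤ C * (1 + Real.log K) / (h * K) * (Real.log u * (h * u + √u))

/-- **HKW** (short, medium; the frequency `0` with a weight in the norm).  From HKP, HKT (with `X = 64x²` in place of `x`, `log X ≤ 3L`, exponent `A + 1`).  `PS n F - PS (n-1) F` = sum over the `z ∈ FF n` with `nn z = n` prime, so `PW U w F = ∑_{n ∈ Ioc 0 U} w n (PS n F - PS (n-1) F) = w(U) PS U F - ∑_{0 < n < U} (w(n+1) - w(n)) PS n F`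
(`PS 0 F = 0`).  For `w = tl v δ` (`w n = max 0 (1 - |log n - v|/δ)`, first increasing, then decreasing, values in `[0,1]`) the total variation is at most `2`, so `‖PW‖ ≤ 3 max_{n ≤ U} ‖PS n F‖`.  (2) the same for `PS n 1 - n`. -/
def HKW_stmt : Prop := ∀ A B : ℕ, ∃ x₀ : ℕ, ∀ x : ℕ, x₀ ≤ x → ∀ v δ : ℝ, 0 < δ →
  (∀ d : ℕ, Odd d → Squarefree d → (d : ℝ) ≤ Real.log x ^ B → ∀ ψ : ℤ × ℤ → ℂ, IsRC d ψ → ∀ j i : ℕ, j ≤ 1 → i ≤ 1 → UInv ψ j 0 → ¬ HTriv d ψ j i 0 →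
    ‖PW (64 * x ^ 2) (tl v δ) (HC ψ j i 0)‖ ≤ x ^ 2 / Real.log x ^ A) ∧
  ‖PW (64 * x ^ 2) (tl v δ) (fun _ => 1) - ∑ n ∈ Ioc 0 (64 * x ^ 2), (tl v δ n : ℂ)‖ ≤ x ^ 2 / Real.log x ^ A

/-- **GDT** (medium; copy of Pool/Agent/helper81/FI/GDA.lean).  From ORT, GDF, KEY, HKW, FOU.  If `η ≥ 1/3` there is no `h` (`h ≤ 1/2`, `x^(-1/3+η) ≥ 1`).  `d = 2^e d'`, `K = ⌈L^(B+5)/h⌉ ≤ x^(1/3-η/2)`, KEY with `η/2`, `M = K`, HKW with exponent `B + 2`, KEY with exponent `B + 2`.  `tl v δ n = 0` for `n ≤ x²`, in particular for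
`n ≤ d'`.  `UInv` holds for `κ = fr (ang w) m`; `fr (ang w) m = 0` only for `m = 0` and `ang w = 0`.  In GDF: the terms with `fr ≠ 0`: `|1 - |m|/K| ≤ 1`, `‖ck‖ ≤ h` (FOU), so at most `h x²/L^(B+2)` for every `(j,t,i)` by KEY; the terms with `fr = 0` (`m = 0`, `ck h c 0 = h/(2 lep)`): HKW, at most `h x²/L^(B+2)` unless the character is trivial
(`t` principal, `j = i = 0`), where `HC = 1` on the prime elements with `w ≠ 0` (coprime to `d'`) and HKW (2) gives `2^{-e} k⁻¹ ½ (h/(2 lep)) ∑ tl`.  Error of GDF: `C (1 + log K) L^(-B-5) · 3L (64 h x² + 8x)`, `x ≤ h x²`. -/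
def GDT_stmt : Prop := ∀ η : ℝ, 0 < η → ∀ B Kd : ℕ, ∃ x₀ : ℕ, ∀ x : ℕ, x₀ ≤ x → ∀ d : ℕ, Squarefree d → (d : ℝ) ≤ Real.log x ^ B →
  ∀ v δ : ℝ, 1 / Real.log x ^ Kd ≤ δ → δ ≤ 1 → 2 * Real.log x ≤ v - δ → v + δ ≤ Real.log (64 * x ^ 2) →
  ∀ h c : ℝ, (x : ℝ) ^ (-(1 / 3) + η) ≤ h → h ≤ c → c + h ≤ 1 →
  |Gw (64 * x ^ 2) (tl v δ) h c d - (∏ p ∈ d.primeFactors, gg p) * (h * (∑ n ∈ Ioc 0 (64 * x ^ 2), tl v δ n) / (4 * lep))| ≤ h * x ^ 2 / Real.log x ^ B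

/-! ## sharp cuts in the norm, the box -/

/-- **TNP** (short, medium; tents from above and from below).  The tents `tr0 (kδ) δ`, `k ∈ ℤ`, sum to `1` at every point (at most two are not zero).  `S₁ = {k : a - δ < kδ < b + δ}`, `S₀ = {k : a + δ ≤ kδ ≤ b - δ}` (intervals of integers). -/
def TNP_stmt : Prop := ∀ a b δ : ℝ, a ≤ b → 0 < δ → ∃ S₀ S₁ : Finset ℤ,
  ((#S₀ : ℝ) ≤ (b - a) / δ + 5 ∧ (#S₁ : ℝ) ≤ (b - a) / δ + 5) ∧ (∀ k : ℤ, k ∈ S₀ ∨ k ∈ S₁ → a - 2 * δ ≤ k * δ - δ ∧ k * δ + δ ≤ b + 2 * δ) ∧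
  ∀ y : ℝ, (∑ k ∈ S₀, tr0 (k * δ) δ y ≤ if a < y ∧ y ≤ b then 1 else 0) ∧ ((if a < y ∧ y ≤ b then 1 else 0) ≤ ∑ k ∈ S₁, tr0 (k * δ) δ y) ∧
    ((if a + 2 * δ ≤ y ∧ y ≤ b - 2 * δ then 1 else 0) ≤ ∑ k ∈ S₀, tr0 (k * δ) δ y) ∧ (∑ k ∈ S₁, tr0 (k * δ) δ y ≤ if a - 2 * δ < y ∧ y < b + 2 * δ then 1 else 0)

/-- **GDS** (medium).  From GDT, TNP.  `a = log u₁`, `b = log u₂`, `δ = 1/L^(B+4)`, GDT with the exponents `2B + 8`, `Kd = B + 4`.  For a finite set `S` of integers put `D(S) = ∑_{k ∈ S} Gw (64x²) (tl (kδ) δ) h c d` = sum over the `z ∈ FF (64x²)` with `nn z` prime, `N8 z < 0`, `d ∣ z.2` of `log (nn z) tn h c (yy z) · ∑_{k ∈ S} tr0 (kδ) δ (log (nn z))`; all terms are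
nonnegative, so `D(S₀) ≤ Gd u₁ u₂ h c d ≤ D(S₁)` (`a < log n ≤ b` iff `u₁ < n ≤ u₂`; `z ∈ FF u₂` iff `z ∈ FF (64x²)` and `nn z ≤ u₂`, row SIZ or GD1_mem, GD1_box in helper52/FI/GD1.lean).  GDT for every `k`: `2 log x ≤ a - 2δ`, `b + 2δ ≤ log (64x²)`; total error `C L^(B+4) h x²/L^(2B+8)`.  Main terms:
`∑_{n ≤ 64x²} ∑_{k ∈ S} tr0 (kδ) δ (log n)` lies between `u₂ e^{-2δ} - u₁ e^{2δ} - 1` (for `S₀`) and `u₂ e^{2δ} - u₁ e^{-2δ} + 1` (for `S₁`), both `u₂ - u₁ + O(δ x² + 1)`; the product of the `gg` is in `[0, 1]` (`0 < gg p ≤ 1`). -/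
def GDS_stmt : Prop := ∀ η : ℝ, 0 < η → ∀ B : ℕ, ∃ x₀ : ℕ, ∀ x : ℕ, x₀ ≤ x → ∀ d : ℕ, Squarefree d → (d : ℝ) ≤ Real.log x ^ B →
  ∀ u₁ u₂ : ℕ, 2 * x ^ 2 ≤ u₁ → u₁ ≤ u₂ → u₂ ≤ 32 * x ^ 2 → ∀ h c : ℝ, (x : ℝ) ^ (-(1 / 3) + η) ≤ h → h ≤ c → c + h ≤ 1 →
  |Gd u₁ u₂ h c d - (∏ p ∈ d.primeFactors, gg p) * (h * (u₂ - u₁) / (4 * lep))| ≤ h * x ^ 2 / Real.log x ^ B

/-- **GXP** (medium; template Pool/Agent/helper75/FI/GBX.lean).  From GBB, GBR, GDS.  `m = ⌈(x/A) L^(B+4)⌉`, `h = 1/m ≥ A/(2 x L^(B+4)) ≥ x^(-1/3+η/2)`, GDS with `η/2` and the exponent `B + 3`.  `cu1 x m k < cu2 x A m k` only if `8x²/cosh² < A²/sinh²` at `k/(2m)` (`⌊·⌋` is monotone), so `k/(2m) ≤ sinh(k/2m) < (A/(√8 x)) cosh(1/2) ≤ 0.4 A/x`: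
at most `m A/x` values of `k`; for the other `k` the cell is empty (`Gd u u = 0`, `cu2 - cu1 = 0`).  `2x² ≤ cu1` (`cosh(1/2)² < 2`), `cu2 ≤ 32x²`.  The errors of GDS add up to `(m A/x) (1/m) x²/L^(B+3)`; GBB: `C x (x/m + 1) L ≤ C (A x/L^(B+3) + x L)`; GBR: `C (x²/m + 1) ≤ C (A x/L^(B+4) + 1)`; `A ≥ x^(2/3)`. -/
def GXP_stmt : Prop := ∀ η : ℝ, 0 < η → ∀ B : ℕ, ∃ x₀ : ℕ, ∀ x : ℕ, x₀ ≤ x → ∀ d : ℕ, Squarefree d → (d : ℝ) ≤ Real.log x ^ B → ∀ A : ℕ, (x : ℝ) ^ (2 / 3 + η) ≤ A → A ≤ x →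
  |∑ ζ ∈ PZ x A with ((nn ζ).Prime ∧ (d : ℤ) ∣ ζ.2), Real.log (nn ζ) - (∏ p ∈ d.primeFactors, gg p) * (√8 / lep * (A * x))| ≤ A * x / Real.log x ^ B

/-! ## the sieve over `l`, the mean value, the positive proportions -/

/-- **MTP** (medium; copy of Pool/Agent/helper54/FI/MTA.lean).  From FL2, GXP, KPR, KAP.  The finite set of the `ζ ∈ PZ x A` with `nn ζ` prime, weights `log (nn ζ)/E₁`, now `E₁ = A x/L^B₁`; `h_p(ζ) = [p ∣ ζ.2]`, `ω p = p gg p`, `X = (√8/lep) A x/E₁`.  `D` with `d = ∏ D ≤ L^B`: GXP; `d > L^B`: the sum is at most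
`A (x/d + 1) log(32x²)`, and `0` if `d > 2x`, so `≤ 3 A x log(32x²)/L^B`; `X E₁ ∏ gg ≤ 2 A x kap/L^B`; both `≤ E₁ ∏ ω` (KPR: `∏ ω ≥ 1/kap`).  `B₁ = 2 C₅ c (b+1) + 3`, `B = B₁ + 5`: the sieve error is `kap E₁ (Zr r)^{c(b+1)} ≤ A x/L`. -/
def MTP_stmt : Prop := ∀ η : ℝ, 0 < η → ∀ ε : ℝ, 0 < ε → ∀ C₅ : ℕ, ∃ x₀ : ℕ, ∀ x : ℕ, x₀ ≤ x → ∀ r : ℕ, Real.log x ^ C₅ ≤ Zr r → (Zr r : ℝ) ≤ Real.log x ^ (2 * C₅) → ∀ A : ℕ,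
  (x : ℝ) ^ (2 / 3 + η) ≤ A → A ≤ x →
  |∑ ζ ∈ PZ x A, nu r ζ.2 * (if (nn ζ).Prime then Real.log (nn ζ) else 0) -
      kap r * (∏ p ∈ Nat.primesLE (Zr r), (1 - gg p)) * (√8 / lep * (A * x))| ≤ ε * (A * x)

/-- **MSP** (medium; copy of Pool/Agent/helper78/FI/MVS.lean).  From RDP, PPW, PPX, KAP, MTP, KPS.  RDP with `B = 1` gives `C₅`; `r` = the least `r` with `L^C₅ ≤ Zr r`, then `Zr r ≤ L^(2C₅)`.  On `PZ` `lam = th - nu`; PPW (`≤ x^(3/2) ≤ A x^(5/6)`), PPX (`kap x^(4/3) ≤ A x^(1-1/3) kap`). -/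
def MSP_stmt : Prop := ∀ η : ℝ, 0 < η → ∀ ε : ℝ, 0 < ε → ∃ x₀ : ℕ, ∀ x : ℕ, x₀ ≤ x → ∀ A : ℕ, (x : ℝ) ^ (2 / 3 + η) ≤ A → A ≤ x →
  |∑ ζ ∈ PZ x A with (nn ζ).Prime, th ζ.2 * Real.log (nn ζ) - √8 / lep * Sg * (A * x)| ≤ ε * (A * x)

/-- **MAP** (short, medium; copy of Pool/Agent/helper18/FI/MVA.lean).  From MSP, KPS. -/
def MAP_stmt : Prop := ∀ η : ℝ, 0 < η → ∀ ε : ℝ, 0 < ε → ∃ x₀ : ℕ, ∀ x : ℕ, x₀ ≤ x → ∀ A : ℕ, (x : ℝ) ^ (2 / 3 + η) ≤ A → A ≤ x →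
  |∑ a ∈ (Icc 1 A).filter Odd, (Pool.Agent.FIP.cta x a : ℝ) - √8 / (2 * lep) * Sg * (A * x / Real.log x ^ 2)| ≤ ε * (A * x / Real.log x ^ 2)

/-- **PMW** (short).  From MAP, KPS.  `c = √8/(4 lep) Sg > 0`. -/
def PMW_stmt : Prop := ∃ c : ℝ, 0 < c ∧ ∀ η : ℝ, 0 < η → ∃ x₀ : ℕ, ∀ x : ℕ, x₀ ≤ x → ∀ A : ℕ, (x : ℝ) ^ (2 / 3 + η) ≤ A → A ≤ x →
  c * (A * x / Real.log x ^ 2) ≤ ∑ a ∈ (Icc 1 A).filter Odd, (Pool.Agent.FIP.cta x a : ℝ)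

/-- **PAP** (short, medium; copy of Pool/Agent/helper89/FIP/PPA.lean).  From PSV, PFA (statements in helper94/FIP/Spec.lean), PMW. -/
def PAP_stmt : Prop := ∃ c : ℝ, 0 < c ∧ ∀ η : ℝ, 0 < η → ∃ x₀ : ℕ, ∀ x : ℕ, x₀ ≤ x → ∀ A : ℕ, (x : ℝ) ^ (2 / 3 + η) ≤ A → A ≤ x →
  c * A ≤ #((Icc 1 A).filter fun a => Odd a ∧ c * (x / Real.log x ^ 2) ≤ Pool.Agent.FIP.cta x a)

/-- **PSP** (medium; copy of Pool/Agent/helper30/FI/PSU.lean).  From M8 (statement in helper94/FIP/Spec.lean).  Only `A ≥ √x` is used there. -/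
def PSP_stmt : Prop := ∃ C : ℝ, 0 < C ∧ ∃ x₀ : ℕ, ∀ x : ℕ, x₀ ≤ x → ∀ A : ℕ, (x : ℝ) ^ (2 / 3 : ℝ) ≤ A → A ≤ x →
  ∀ p ∈ (Ioc x (2 * x)).filter Nat.Prime, (Pool.Agent.FIP.ctp A p : ℝ) ≤ C * (A / Real.log x)

/-- **PBP** (short, medium; copy of Pool/Agent/helper77/FI/PPB.lean).  From PSP, PMW. -/
def PBP_stmt : Prop := ∃ c : ℝ, 0 < c ∧ ∀ η : ℝ, 0 < η → ∃ x₀ : ℕ, ∀ x : ℕ, x₀ ≤ x → ∀ A : ℕ, (x : ℝ) ^ (2 / 3 + η) ≤ A → A ≤ x →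
  c * (x / Real.log x) ≤ #((Ioc x (2 * x)).filter fun p => p.Prime ∧ c * (A / Real.log x) ≤ Pool.Agent.FIP.ctp A p)

end Pool.Agent.FJ
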