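import Pool.Agent.helper95.FJ.SpecD

/-!
# Project fj (MP_ad8ced_nt, theorem B+), Spec E: the model in short intervals, type I, type II, Vaughan

Rules as in SpecC (`import Pool.Agent.helper95.FJ.SpecE`, `namespace Pool.Agent.FJ`, `open Finset Pool.Agent.FI`).  `L = log x`.
-/

set_option autoImplicit false

open Finset

noncomputable section

namespace Pool.Agent.FJ

open Pool.Agent.FI

/-- the number of the roots of `ν² ≡ 8` modulo `q` -/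
def rt (q : ℕ) : ℕ := #((range q).filter fun ν : ℕ => (q : ℤ) ∣ (ν : ℤ) ^ 2 - 8)

/-- **ROO** (short, medium).  `q` odd.  Fix a root `ν₀` (if there is none the count is `0`); `ν ↦ gcd(q, ν - ν₀)` is injective on the roots: `q ∣ (ν - ν₀)(ν + ν₀)`; a common prime factor `p` of `ν - ν₀`, `ν + ν₀` and `q` would divide `2ν₀` and `ν₀² - 8`, impossible for odd `p`; so
`q = q₁ q₂` with `q₁ = gcd(q, ν-ν₀)`, `q₂ ∣ ν + ν₀` and `ν` is determined modulo `q₁` and modulo `q₂`, which are coprime.  (The same argument as in CN1, Pool/Agent/*/FI/CN1.lean.) -/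
def ROO_stmt : Prop := ∀ q : ℕ, Odd q → rt q ≤ #q.divisors

open scoped Classical in
/-- **TIA** (medium; the sum over `a` for fixed `l`).  Möbius over `g ∣ l` (`g` odd): `[gcd(a,l) = 1] = ∑_{g ∣ a, g ∣ l} μ(g)`.  For each root `ν` modulo `q` the conditions `g ∣ a`, `a` odd, `a ≡ ν l mod q` (equivalent to `a² ≡ 8 l²` for some root, as `l` is invertible modulo `q`) are one class modulo `2 g q`
(`gcd(g, q) = 1`).  `f(a) = log(8l² - a²)^h` is positive, decreasing in `a` and at most `log(32x²)`: the sum over one class modulo `m` is `(1/m) ∑_{a ≤ A} f(a) + O(f(0))`.  Main term `g = 1`. -/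
def TIA_stmt : Prop := ∃ C : ℝ, 0 < C ∧ ∀ x A : ℕ, 2 ≤ x → 1 ≤ A → A ≤ x → ∀ q : ℕ, Odd q → ∀ l : ℤ, (x : ℤ) < l → l ≤ 2 * x → l % 2 = 1 →
  IsCoprime l (q : ℤ) → ∀ h : ℕ, h ≤ 1 →
  |∑ a ∈ Icc (1 : ℤ) A with (a % 2 = 1 ∧ IsCoprime a l ∧ (q : ℤ) ∣ a ^ 2 - 8 * l ^ 2), Real.log ((8 * l ^ 2 - a ^ 2 : ℤ) : ℝ) ^ h
      - rt q / (2 * q) * ∑ a ∈ Icc (1 : ℤ) A, Real.log ((8 * l ^ 2 - a ^ 2 : ℤ) : ℝ) ^ h|
    ≤ C * (1 + Real.log x) * (rt q * (A / q * (∑ g ∈ l.natAbs.divisors with 1 < g, 1 / (g : ℝ)) + #l.natAbs.divisors))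

/-- **TIN** (medium; type I).  From TIA.  `ζ = (a, l) ∈ PZ` with `q ∣ nn ζ` has `gcd(l, q) = 1` (a common prime factor would divide `a`), and `l` is odd and rough if `lm l ≠ 0`.  Error terms of TIA: every divisor `g > 1` of a rough `l` is `> Z`, so `∑_l ∑_{g ∣ l, g > 1} 1/g ≤ ∑_{Z < g ≤ 2x} (x/g + 1)/g ≤ x/Z + 3L`, and
`∑_{l ≤ 2x} τ(l) ≤ 2x (1 + log 2x)`; `|lm| ≤ 2L`.  Main term: for each `a ≤ A` the sum over `l`, `gcd(l,q) = 1`, of `lm(l) log(8l² - a²)^h`: Abel summation in `l` (increasing, `≤ 3L`) with `|∑_{x < l ≤ u} lm(l)| ≤ x/L^E` (SAh with `q = 1`) and at most `∑_{g ∣ q, g > Z prime} (x/g + 1) ≤ 4L (x/Z + 1)` integers `l` with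
`lm l ≠ 0`, `gcd(l,q) > 1`. -/
def TIN_stmt : Prop := ∀ B : ℕ, ∃ E : ℕ, ∃ x₀ : ℕ, ∀ x : ℕ, x₀ ≤ x → ∀ (Z : ℕ) (lm : ℤ → ℝ), Real.log x ^ E ≤ Z → LamOK x Z (2 * Real.log x) lm →
  SAh x 1 (x / Real.log x ^ E) lm → ∀ A : ℕ, 1 ≤ A → A ≤ x → ∀ q : ℕ, Odd q → q ≤ 32 * x ^ 2 → ∀ h : ℕ, h ≤ 1 →
  |∑ ζ ∈ PZ x A with q ∣ nn ζ, lm ζ.2 * Real.log (nn ζ) ^ h| ≤ rt q * (A * x / (q * Real.log x ^ B) + x * Real.log x ^ 5)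

open scoped Classical in
/-- **ZGD** (short, medium).  From FFC.  For fixed `s` (at most `4√N + 1` values) the congruence `r² ≡ 8 s² mod g` has at most two solutions modulo the prime `g`. -/
def ZGD_stmt : Prop := ∃ C : ℝ, 0 < C ∧ ∀ N g : ℕ, 1 ≤ N → g.Prime → (#{z ∈ ZD N | g ∣ nn z} : ℝ) ≤ C * (N / g + √N)

open scoped Classical in
/-- **CWG** (medium).  As CZG, for fixed `z` (`r`, `s` coprime).  BDY_coef: `|r| ≥ √N` or `8|s| ≥ √N`.  First case: fix `v` (`2R+1` values), `u` lies in an interval of length `2Y/√N`; `g ∣ r v + s u`: if `g ∤ s` then `u` is determined modulo `g`: `(2R+1)(2Y/(g√N) + 1)`; if `g ∣ s` then `g ∤ r`, `g ∣ v`: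
`(2R/g + 1)(2Y/√N + 1)`.  Second case: fix `u`, `v` free; `g ∤ r` or `g ∣ r`, `g ∤ s`, `g ∣ u`. -/
def CWG_stmt : Prop := ∃ C : ℝ, 0 < C ∧ ∀ N R g : ℕ, 1 ≤ N → 1 ≤ R → g.Prime → ∀ z ∈ ZD N, ∀ Y : ℝ, 0 ≤ Y →
  (#{w ∈ Bx R | |(ac z w : ℝ)| ≤ Y ∧ (g : ℤ) ∣ lc z w} : ℝ) ≤ C * (R * Y / (g * √N) + R + Y / √N)

open scoped Classical in
/-- **NPW** (medium; products which are not primitive).  From BDG, ZGD, CWG, FFC.  A prime `g > Z` divides `ac z w` and `lc z w`.  (a) `g` divides both coordinates of `w` (`w` odd, so `w ≠ 0`, `g ≤ R`): BDG with `Y = A`, `50 N ∑_{Z < g ≤ R} C (R/g)(A/(g√N) + 1)`, `R ≤ 50x/√N`: `≤ C (A x/Z + x √N (1 + log x))`.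
(b) otherwise `g ∣ N8 z` (the matrix of the multiplication by `z` is singular modulo `g`), and `g ∣ lc z w`.  For `Z < g ≤ G`: ZGD and CWG with `Y = A`: `C (N/g + √N)(A x/(g N) + x/√N)` (`A ≤ x`), sum over `g`: `≤ C (A x/Z + (x√N + A x/√N)(1 + log x) + x G)`.
For `g > G`: for each `z` at most `log(2N)/log 2` primes `g ∣ nn z` (`N ≤ A² ≤ x²`): `50 N · C (1 + log x)(A x/(G N) + x/√N)`. -/
def NPW_stmt : Prop := ∃ C : ℝ, 0 < C ∧ ∀ x N R A Z G : ℕ, Siz x N R A → 1 ≤ Z → 1 ≤ G → G ≤ x →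
  (#{t ∈ ZD N ×ˢ Bx R | t.2.1 % 2 = 1 ∧ (x : ℤ) < lc t.1 t.2 ∧ lc t.1 t.2 ≤ 2 * x ∧ 0 < ac t.1 t.2 ∧ ac t.1 t.2 ≤ A ∧
      ¬ IsCoprime (ac t.1 t.2) (lc t.1 t.2) ∧ ∀ g : ℕ, g.Prime → g ≤ Z → ¬ (g : ℤ) ∣ lc t.1 t.2} : ℝ)
    ≤ C * (1 + Real.log x) * (A * x / Z + x * √N + A * x / √N + x * G + A * x / G)

/-- **TYN** (medium, long; type II).  From DVE, DVU, SIZ, FFC, CZP, TDW, NPW, T2N.  As TY2 (helper41/FI/TY2.lean).  For `ζ ∈ PZ` (primitive, odd, `7x² ≤ nn ζ ≤ 32x²`) every divisor `m` of `nn ζ` is `nn z` for exactly one `z ∈ Fd` with `z w = ζ`, `nn w = nn ζ/m`; `z` is primitive and `w` odd.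
`N = 2^j`: only the `N` with `x^(2/3-η)/2 ≤ N ≤ x^(4/3+5η/4)` contribute (at most `4L` of them).  `S_N = ∑_{w ∈ Bx R odd} ∑_{z ∈ ZD N} β(nn z) α(nn w) lm(lc z w) ga A (ac z w)`, `R = Nat.sqrt (2000 x²/N)` (`w` lies in `Bx R`, as in TY2); T2N with `η/2` and `B + 2`:
`A² N ≥ x^(4/3+2η) x^(2/3-η)/2 ≥ x^(2+η/2)`, `N x^(η/2) ≤ x^(4/3+7η/4) ≤ A²`; `Siz x N R A` holds.  If `η > 1/3` there is no `A`.  The pairs `(z, w)` whose product is not primitive: by Cauchy-Schwarz `≤ 6L² (#)^(1/2) (∑ τ(nn w)²)^(1/2)`, `#` = NPW with `G = ⌈x^(η/4)⌉`,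
and `∑_{(z,w), x < lc, |ac| ≤ A} τ(nn w)² ≤ ∑_w τ(nn w)² · C √N (A√N/x + 1) ≤ C A x L^42` (TDW, CZP): total `≤ A x L^30 (Z^(-1/2) + x^(-η/16))`. -/
def TYN_stmt : Prop := ∀ η : ℝ, 0 < η → ∀ B : ℕ, ∃ E : ℕ, ∃ x₀ : ℕ, ∀ x : ℕ, x₀ ≤ x → ∀ (Z : ℕ) (lm : ℤ → ℝ), Real.log x ^ E ≤ Z →
  LamOK x Z (2 * Real.log x) lm →
  (∀ K : ℕ, 1 ≤ K → (K : ℝ) ≤ (x : ℝ) ^ (2 / 3 - η / 2) → SIh x K (Real.log x ^ E) (x ^ 2 / (K * Real.log x ^ E)) lm) →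
  ∀ A : ℕ, (x : ℝ) ^ (2 / 3 + η) ≤ A → A ≤ x → ∀ β α : ℕ → ℝ, (∀ m, |β m| ≤ 3 * Real.log x) → (∀ k, |α k| ≤ #k.divisors) →
  (∀ m k : ℕ, m * k ≤ 32 * x ^ 2 → β m * α k ≠ 0 → (x : ℝ) ^ (2 / 3 - η) ≤ m ∧ (m : ℝ) ≤ (x : ℝ) ^ (4 / 3 + 5 * η / 4)) →
  |∑ ζ ∈ PZ x A, lm ζ.2 * ∑ m ∈ (nn ζ).divisors, β m * α (nn ζ / m)| ≤ A * x / Real.log x ^ B

/-- **NUI** (medium; rough numbers in short intervals).  Copy of NUS (Pool/Agent/helper45/FI/NUS.lean) with `(u, u + h]` in place of `(0, u]`: the number of the multiples of `D` in a residue class modulo `q` is `h/(q D) + O(1)`; the sieve error `Zr r ^ (42 (b+1)) ≤ x^(1/8)` is below `h/L^(A+1)`. -/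
def NUI_stmt : Prop := ∀ A C₅ : ℕ, ∃ x₀ : ℕ, ∀ x : ℕ, x₀ ≤ x → ∀ r : ℕ, (Zr r : ℝ) ≤ Real.log x ^ (2 * C₅) → ∀ q : ℕ, 1 ≤ q → q ≤ Zr r →
  ∀ (c : ℤ) (u h : ℕ), u + h ≤ 4 * x → (x : ℝ) ^ (1 / 4 : ℝ) ≤ h →
  (IsCoprime c (q : ℤ) → |∑ l ∈ Ioc (u : ℤ) (u + h) with (q : ℤ) ∣ l - c, nu r l - h / (Nat.totient q : ℝ)| ≤ h / Real.log x ^ A) ∧
  (¬ IsCoprime c (q : ℤ) → ∑ l ∈ Ioc (u : ℤ) (u + h) with (q : ℤ) ∣ l - c, nu r l = 0)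

/-- **PSI** (block P of helper94): the prime number theorem in almost all windows of length `x^(1/3+η)`, with characters of small conductor. -/
def PSI_stmt : Prop := ∀ η : ℝ, 0 < η → ∀ A Bq : ℕ, ∃ x₀ : ℕ, ∀ x : ℕ, x₀ ≤ x → ∀ K : ℕ, 1 ≤ K → (K : ℝ) ≤ (x : ℝ) ^ (2 / 3 - η) →
  ∀ q : ℕ, 1 ≤ q → (q : ℝ) ≤ Real.log x ^ Bq → ∀ ψ : DirichletCharacter ℂ q, ψ.IsPrimitive →
  ∑ i ∈ range K, ‖∑ l ∈ cl x K i, ((ArithmeticFunction.vonMangoldt l.toNat : ℂ) - (if q = 1 then 1 else 0)) * ψ (l : ZMod q)‖ ^ 2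
    ≤ x ^ 2 / (K * Real.log x ^ A)

/-- **LMN** (medium; the second moment of `lam` over the cells).  From PSI, NUI, GPT, LMA.  `C₀ = E + 20`, PSI with `A = E + 5`, `Bq = E`, NUI with `A = 2E + 10`.  `lam x r = th - nu` on `(x, 2x]`.  (1) the `l` with `lam l ≠ 0`, `gcd(l, k) > 1`: a prime `g > Zr r` divides `l` and `k`; at most `5L` such `g` (`k ≤ x³`),
so at most `5L (#cl/Zr r + 1)` integers in each cell, `|lam| ≤ 2L` (LMA).  (2) `th` and `Λ` differ at the proper prime powers: the sum over all cells of the absolute values is at most `P = 3L · 3√x L`, the sum of the squares at most `P²`.  (3) `∑_{cl i} nu ψ = ∑_{c < q} ψ(c) ∑_{l ≡ c} nu = [q = 1] #cl + O(q #cl/L^(2E+10))` by NUI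
(`∑_c ψ(c) = 0` for `q > 1`; `#cl i ≥ x/(2K) ≥ x^(1/4)` by GPT). -/
def LMN_stmt : Prop := ∀ η : ℝ, 0 < η → ∀ E : ℕ, ∃ C₀ : ℕ, ∀ C₅ : ℕ, C₀ ≤ C₅ → ∃ x₀ : ℕ, ∀ x : ℕ, x₀ ≤ x → ∀ r : ℕ, Real.log x ^ C₅ ≤ Zr r →
  (Zr r : ℝ) ≤ Real.log x ^ (2 * C₅) → ∀ K : ℕ, 1 ≤ K → (K : ℝ) ≤ (x : ℝ) ^ (2 / 3 - η) →
  SIh x K (Real.log x ^ E) (x ^ 2 / (K * Real.log x ^ E)) (lam x r)

/-- **RDP** (medium; the reduction).  From LMA, LMN, VGI, TIN, ROO, TYN, SIZ.  If `η > 1/3` there is no `A` (for `x > 1`).  `U = V = ⌈x^(2/3-η)⌉`.  `E₁` = exponent of TYN for `η`, `B + 2`; `E₂` = exponent of TIN for `B + 6`; `C₅` = maximum of `E₁`, `E₂`, `C₀` of LMN for `η/2`, `E₁`, and of what LMA needs for `E₂` (SAh for `Q = 1 ≤ L^E₂`), `+ 1`.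
Vaughan (VGI) for `n = nn ζ ∈ [7x², 32x²]`, `U < n`.  (1) `d ≤ V`, `d` odd (`nn ζ` is odd, for even `d` the sum is empty): TIN with `h = 1` and `h = 0` (`log d ≤ L`); (2) `cc U V q` with `q ≤ U`: TIN, `h = 0`, `|cc| ≤ L`; `∑_{q ≤ U} rt q/q ≤ ∑ τ(q)/q ≤ (1+L)²`, `∑_{q ≤ U} rt q ≤ U (1 + L)` (ROO), `x U L^9 ≤ A x^(1-η)`.
(3) `cc U V q` with `q > U`: TYN with `β m = cc U V m` for `U < m` and `0` otherwise (zero for `m > UV ≤ 4x^(4/3-2η)`), `α k = 1` for `k ≥ 1`, `α 0 = 0`.  (4) `Λ(m) al V (n/m)`, `m > U`: TYN with `β m = Λ m` for `U < m ≤ 32x²`, `α = al V` (zero for `k ≤ V`, so `m ≤ 32x²/V ≤ 32 x^(4/3+η)`). -/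
def RDP_stmt : Prop := ∀ η : ℝ, 0 < η → ∀ B : ℕ, ∃ C₅ x₀ : ℕ, 1 ≤ C₅ ∧ ∀ x : ℕ, x₀ ≤ x → ∀ r : ℕ, Real.log x ^ C₅ ≤ Zr r →
  (Zr r : ℝ) ≤ Real.log x ^ (2 * C₅) → ∀ A : ℕ, (x : ℝ) ^ (2 / 3 + η) ≤ A → A ≤ x →
  |∑ ζ ∈ PZ x A, lam x r ζ.2 * ArithmeticFunction.vonMangoldt (nn ζ)| ≤ A * x / Real.log x ^ B

end Pool.Agent.FJ
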