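import Pool.Agent.helper10.FI.FDE
import Pool.Agent.helper11.FI.GBR
import Pool.Agent.helper11.FI.UCT
import Pool.Agent.helper11.FJ.CZG
import Pool.Agent.helper14.HK.TVL
import Pool.Agent.helper17.CH.All
import Pool.Agent.helper17.FJ.PCO
import Pool.Agent.helper17.HK.CME
import Pool.Agent.helper17.HK.CVR
import Pool.Agent.helper18.FIP.M8
import Pool.Agent.helper2.FI.CNU
import Pool.Agent.helper2.HK.ABL
import Pool.Agent.helper22.FI.PPW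
import Pool.Agent.helper22.FJ.KIJ
import Pool.Agent.helper22.FJ.WPN
import Pool.Agent.helper24.SK.All
import Pool.Agent.helper25.FI.FOU
import Pool.Agent.helper25.HK.CNP
import Pool.Agent.helper27.FI.CN3
import Pool.Agent.helper27.FI.TDW
import Pool.Agent.helper27.FJ.CWG
import Pool.Agent.helper27.FJ.PB2
import Pool.Agent.helper27.FJ.PBX
import Pool.Agent.helper27.FJ.PCI
import Pool.Agent.helper27.FJ.PDI
import Pool.Agent.helper27.FJ.PFB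
import Pool.Agent.helper27.FJ.PIN
import Pool.Agent.helper27.FJ.PMS
import Pool.Agent.helper29.BP.CLP
import Pool.Agent.helper29.BP.RMB
import Pool.Agent.helper29.FJ.PAD
import Pool.Agent.helper29.FJ.RDP
import Pool.Agent.helper30.BP.SMA
import Pool.Agent.helper30.FI.FDU
import Pool.Agent.helper30.HK.RIN
import Pool.Agent.helper31.FI.DVE
import Pool.Agent.helper31.FI.SIZ
import Pool.Agent.helper31.FJ.CHX
import Pool.Agent.helper31.FJ.GCL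
import Pool.Agent.helper31.FJ.NUI
import Pool.Agent.helper31.FJ.PB3
import Pool.Agent.helper31.FJ.WBN
import Pool.Agent.helper32.FI.CN2
import Pool.Agent.helper32.FI.GRP
import Pool.Agent.helper32.HK.RCH
import Pool.Agent.helper34.FI.FFC
import Pool.Agent.helper34.FI.ORT
import Pool.Agent.helper34.FI.PAI
import Pool.Agent.helper34.HK.CPX
import Pool.Agent.helper36.BP.PRC
import Pool.Agent.helper36.HK.HKP
import Pool.Agent.helper36.HK.VAR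
import Pool.Agent.helper39.BP.CHB
import Pool.Agent.helper39.FJ.BDN
import Pool.Agent.helper40.FJ.CMZ
import Pool.Agent.helper40.FJ.LMN
import Pool.Agent.helper40.FJ.PDB
import Pool.Agent.helper40.FJ.REN
import Pool.Agent.helper40.HK.RSP
import Pool.Agent.helper42.BP.NDG
import Pool.Agent.helper42.BP.VTT
import Pool.Agent.helper42.FJ.GDF
import Pool.Agent.helper42.FJ.GDS
import Pool.Agent.helper42.FJ.GDT
import Pool.Agent.helper42.FJ.GXP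
import Pool.Agent.helper42.FJ.LSA
import Pool.Agent.helper42.FJ.LSM
import Pool.Agent.helper42.FJ.LSQ
import Pool.Agent.helper45.BP.SMB
import Pool.Agent.helper45.FI.KPS
import Pool.Agent.helper45.FI.NUS
import Pool.Agent.helper45.FJ.PBP
import Pool.Agent.helper45.HK.LOW
import Pool.Agent.helper46.FI.LMA
import Pool.Agent.helper46.HK.TV2
import Pool.Agent.helper47.HK.GGB
import Pool.Agent.helper47.HK.LIP
import Pool.Agent.helper47.HK.POL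
import Pool.Agent.helper48.BP.PDC
import Pool.Agent.helper48.FI.PPX
import Pool.Agent.helper49.BP.TDM
import Pool.Agent.helper49.FI.FL2
import Pool.Agent.helper49.FJ.BDZ
import Pool.Agent.helper49.FJ.CPN
import Pool.Agent.helper49.FJ.PSP
import Pool.Agent.helper49.HK.RSQ
import Pool.Agent.helper49.HK.TFO
import Pool.Agent.helper50.BP.LOB
import Pool.Agent.helper50.BP.MMS
import Pool.Agent.helper50.FIP.PFA
import Pool.Agent.helper50.FJ.PBK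
import Pool.Agent.helper50.HK.LGC
import Pool.Agent.helper52.BP.DYB
import Pool.Agent.helper52.FI.GBB
import Pool.Agent.helper52.FJ.GPT
import Pool.Agent.helper52.SK.PRD
import Pool.Agent.helper53.BP.FZB
import Pool.Agent.helper53.BP.GFM
import Pool.Agent.helper53.BP.KYD
import Pool.Agent.helper53.BP.RDB
import Pool.Agent.helper53.BP.RGB
import Pool.Agent.helper53.BP.THF
import Pool.Agent.helper53.FJ.MSP
import Pool.Agent.helper53.FJ.MTP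
import Pool.Agent.helper54.BP.FSB
import Pool.Agent.helper54.BP.KEY
import Pool.Agent.helper54.FI.DVU
import Pool.Agent.helper54.HK.UCH
import Pool.Agent.helper55.FJ.HKW
import Pool.Agent.helper55.FJ.PB1
import Pool.Agent.helper55.FJ.T2N
import Pool.Agent.helper59.BP.CMB
import Pool.Agent.helper59.BP.KEB
import Pool.Agent.helper63.FI.LAT
import Pool.Agent.helper63.FJ.CNV
import Pool.Agent.helper63.FJ.GPS
import Pool.Agent.helper63.FJ.GSB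
import Pool.Agent.helper63.FJ.PHK
import Pool.Agent.helper64.BP.PF2
import Pool.Agent.helper64.FJ.PMV
import Pool.Agent.helper64.FJ.PMW
import Pool.Agent.helper64.HK.PNP
import Pool.Agent.helper66.FJ.FEJ
import Pool.Agent.helper66.FJ.FJK
import Pool.Agent.helper66.FJ.MAP
import Pool.Agent.helper66.FJ.SCD
import Pool.Agent.helper66.FJ.TNP
import Pool.Agent.helper67.FJ.CZP
import Pool.Agent.helper68.BP.HBI
import Pool.Agent.helper68.BP.SCW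
import Pool.Agent.helper71.FJ.VAN
import Pool.Agent.helper72.BP.GPP
import Pool.Agent.helper72.BP.PF3
import Pool.Agent.helper72.BP.VMG
import Pool.Agent.helper72.GD.G1
import Pool.Agent.helper72.HK.MUL
import Pool.Agent.helper73.HK.APW
import Pool.Agent.helper74.BP.FTB
import Pool.Agent.helper74.FJ.PTI
import Pool.Agent.helper75.BP.RWB
import Pool.Agent.helper75.HK.REL
import Pool.Agent.helper76.HK.PPR
import Pool.Agent.helper77.FI.KPR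
import Pool.Agent.helper77.HK.RCS
import Pool.Agent.helper78.FI.YYB
import Pool.Agent.helper78.GD.G2
import Pool.Agent.helper78.HK.ABS
import Pool.Agent.helper79.FI.CN1
import Pool.Agent.helper8.BP.MVH
import Pool.Agent.helper8.BP.RLB
import Pool.Agent.helper81.FI.THU
import Pool.Agent.helper81.HK.SRF
import Pool.Agent.helper82.BP.MMB
import Pool.Agent.helper82.BP.PF1
import Pool.Agent.helper82.FJ.GPL
import Pool.Agent.helper82.FJ.PSM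
import Pool.Agent.helper82.FJ.TIN
import Pool.Agent.helper83.FJ.TIA
import Pool.Agent.helper85.HK.WCH
import Pool.Agent.helper89.BP.CHT
import Pool.Agent.helper89.FI.GBA
import Pool.Agent.helper89.FJ.PAP
import Pool.Agent.helper89.FJ.PLX
import Pool.Agent.helper89.FJ.ROO
import Pool.Agent.helper89.HK.VAB
import Pool.Agent.helper9.BP.MUE
import Pool.Agent.helper9.FJ.BDG
import Pool.Agent.helper90.FI.VGI
import Pool.Agent.helper90.FIP.PSV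
import Pool.Agent.helper91.BP.FJB
import Pool.Agent.helper92.BP.RTC
import Pool.Agent.helper92.FJ.CSF
import Pool.Agent.helper92.FJ.LSB
import Pool.Agent.helper92.FJ.PWI
import Pool.Agent.helper92.FJ.ZGD
import Pool.Agent.helper94.FJ.PCE
import Pool.Agent.helper94.FJ.PSI
import Pool.Agent.helper94.FJ.PSK
import Pool.Agent.helper97.FI.KAP
import Pool.Agent.helper98.FI.PRI
import Pool.Agent.helper98.FJ.WFN
import Pool.Agent.helper98.HK.HKT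
import Pool.Agent.helper98.HK.TRI
import Pool.Agent.helper99.BP.HSF
import Pool.Agent.helper99.FI.THS
import Pool.Agent.helper99.FJ.NPW
import Pool.Agent.helper99.FJ.TYN

/-!
# Project fj (MP_ad8ced_nt, theorem (B+)): assembly of all rows

Narrow range `x^(2/3+η) ≤ A ≤ x` of the square root `a` of the constant term.  Every theorem below is closed (no hypothesis).
-/

set_option autoImplicit false

namespace Pool.Agent.FJAsm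

theorem aFI_KAP : Pool.Agent.FI.KAP_stmt :=
  Pool.Agent.FI.KAP

theorem aFI_NUS : Pool.Agent.FI.NUS_stmt :=
  Pool.Agent.FI.NUS aFI_KAP

theorem aFI_THS : Pool.Agent.FI.THS_stmt :=
  Pool.Agent.FI.THS

theorem aFI_LMA : Pool.Agent.FI.LMA_stmt :=
  Pool.Agent.FI.LMA aFI_NUS aFI_THS aFI_KAP

theorem aFJ_PBX : Pool.Agent.FJ.PBX_stmt :=
  Pool.Agent.FJ.PBX

theorem aSK_THB : Pool.Agent.SK.THB_stmt :=
  Pool.Agent.SK.sk_THB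

theorem aSK_TRC : Pool.Agent.SK.TRC_stmt :=
  Pool.Agent.SK.sk_TRC

theorem aFJ_PTI : Pool.Agent.FJ.PTI_stmt :=
  Pool.Agent.FJ.PTI aSK_THB aSK_TRC

theorem aFJ_PFB : Pool.Agent.FJ.PFB_stmt :=
  Pool.Agent.FJ.PFB aFJ_PBX aFJ_PTI

theorem aSK_TAM : Pool.Agent.SK.TAM_stmt :=
  Pool.Agent.SK.sk_TAM

theorem aCH_MVT : Pool.Agent.CH.MVT_stmt :=
  Pool.Agent.CH.All.MVT_all

theorem aFJ_PMV : Pool.Agent.FJ.PMV_stmt :=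
  Pool.Agent.FJ.PMV aSK_TAM aCH_MVT

theorem aFJ_PIN : Pool.Agent.FJ.PIN_stmt :=
  Pool.Agent.FJ.PIN

theorem aFJ_PB2 : Pool.Agent.FJ.PB2_stmt :=
  Pool.Agent.FJ.PB2

theorem aFJ_PB3 : Pool.Agent.FJ.PB3_stmt :=
  Pool.Agent.FJ.PB3

theorem aSK_SPK : Pool.Agent.SK.SPK_stmt :=
  Pool.Agent.SK.sk_SPK

theorem aSK_VDK : Pool.Agent.SK.VDK_stmt :=
  Pool.Agent.SK.sk_VDK

theorem aFJ_PBK : Pool.Agent.FJ.PBK_stmt :=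
  Pool.Agent.FJ.PBK aFJ_PMV aFJ_PIN aFJ_PB2 aFJ_PB3 aSK_SPK aSK_VDK

theorem aSK_PRD : Pool.Agent.SK.PRD_stmt :=
  Pool.Agent.SK.PRD

theorem aFJ_PDB : Pool.Agent.FJ.PDB_stmt :=
  Pool.Agent.FJ.PDB aFJ_PFB aFJ_PBK aSK_PRD

theorem aFJ_PB1 : Pool.Agent.FJ.PB1_stmt :=
  Pool.Agent.FJ.PB1 aFJ_PMV aFJ_PIN aFJ_PB3 aSK_VDK aSK_TAM

theorem aFJ_PDI : Pool.Agent.FJ.PDI_stmt :=
  Pool.Agent.FJ.PDI aFJ_PFB aFJ_PB1

theorem aSK_DEC : Pool.Agent.SK.DEC_stmt :=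
  Pool.Agent.SK.sk_DEC

theorem aFJ_PCO : Pool.Agent.FJ.PCO_stmt :=
  Pool.Agent.FJ.PCO aFJ_PDB aFJ_PDI aSK_DEC

theorem aSK_PSR : Pool.Agent.SK.PSR_stmt :=
  Pool.Agent.SK.sk_PSR

theorem aFJ_PWI : Pool.Agent.FJ.PWI_stmt :=
  Pool.Agent.FJ.PWI aSK_PSR

theorem aFJ_PCI : Pool.Agent.FJ.PCI_stmt :=
  Pool.Agent.FJ.PCI

theorem aFJ_PMS : Pool.Agent.FJ.PMS_stmt :=
  Pool.Agent.FJ.PMS aFJ_PCO aFJ_PWI aFJ_PCI

theorem aFJ_PCE : Pool.Agent.FJ.PCE_stmt :=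
  Pool.Agent.FJ.PCE aFJ_PMS

theorem aFJ_PSK : Pool.Agent.FJ.PSK_stmt :=
  Pool.Agent.FJ.PSK aSK_PSR

theorem aFJ_PSI : Pool.Agent.FJ.PSI_stmt :=
  Pool.Agent.FJ.PSI aFJ_PCE aFJ_PSK

theorem aFJ_NUI : Pool.Agent.FJ.NUI_stmt :=
  Pool.Agent.FJ.NUI aFI_KAP

theorem aFJ_GPT : Pool.Agent.FJ.GPT_stmt :=
  Pool.Agent.FJ.GPT

theorem aFJ_LMN : Pool.Agent.FJ.LMN_stmt :=
  Pool.Agent.FJ.LMN aFJ_PSI aFJ_NUI aFJ_GPT aFI_LMA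

theorem aFI_VGI : Pool.Agent.FI.VGI_stmt :=
  Pool.Agent.FI.VGI

theorem aFJ_TIA : Pool.Agent.FJ.TIA_stmt :=
  Pool.Agent.FJ.TIA

theorem aFJ_TIN : Pool.Agent.FJ.TIN_stmt :=
  Pool.Agent.FJ.TIN aFJ_TIA

theorem aFJ_ROO : Pool.Agent.FJ.ROO_stmt :=
  Pool.Agent.FJ.ROO

theorem aFI_THU : Pool.Agent.FI.THU_stmt :=
  Pool.Agent.FI.THU

theorem aFI_PRI : Pool.Agent.FI.PRI_stmt :=
  Pool.Agent.FI.PRI

theorem aFI_FDE : Pool.Agent.FI.FDE_stmt :=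
  Pool.Agent.FI.FDE

theorem aFI_DVE : Pool.Agent.FI.DVE_stmt :=
  Pool.Agent.FI.DVE aFI_THU aFI_PRI aFI_FDE

theorem aFI_FDU : Pool.Agent.FI.FDU_stmt :=
  Pool.Agent.FI.FDU

theorem aFI_DVU : Pool.Agent.FI.DVU_stmt :=
  Pool.Agent.FI.DVU aFI_FDU

theorem aFI_SIZ : Pool.Agent.FI.SIZ_stmt :=
  Pool.Agent.FI.SIZ

theorem aFI_FFC : Pool.Agent.FI.FFC_stmt :=
  Pool.Agent.FI.FFC aFI_SIZ

theorem aFJ_CZP : Pool.Agent.FJ.CZP_stmt :=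
  Pool.Agent.FJ.CZP aFI_FFC

theorem aFI_CN1 : Pool.Agent.FI.CN1_stmt :=
  Pool.Agent.FI.CN1 aFI_DVU

theorem aFI_CN2 : Pool.Agent.FI.CN2_stmt :=
  Pool.Agent.FI.CN2 aFI_CN1 aFI_SIZ

theorem aFI_UCT : Pool.Agent.FI.UCT_stmt :=
  Pool.Agent.FI.UCT

theorem aFI_CN3 : Pool.Agent.FI.CN3_stmt :=
  Pool.Agent.FI.CN3 aFI_FDE aFI_CN2 aFI_SIZ aFI_UCT

theorem aFI_TDW : Pool.Agent.FI.TDW_stmt :=
  Pool.Agent.FI.TDW aFI_CN3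

theorem aFJ_BDZ : Pool.Agent.FJ.BDZ_stmt :=
  Pool.Agent.FJ.BDZ aFI_FFC

theorem aFJ_BDG : Pool.Agent.FJ.BDG_stmt :=
  Pool.Agent.FJ.BDG aFJ_BDZ

theorem aFJ_ZGD : Pool.Agent.FJ.ZGD_stmt :=
  Pool.Agent.FJ.ZGD aFI_FFC

theorem aFJ_CWG : Pool.Agent.FJ.CWG_stmt :=
  Pool.Agent.FJ.CWG

theorem aFJ_NPW : Pool.Agent.FJ.NPW_stmt :=
  Pool.Agent.FJ.NPW aFJ_BDG aFJ_ZGD aFJ_CWG aFI_FFC

theorem aFI_LAT : Pool.Agent.FI.LAT_stmt :=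
  Pool.Agent.FI.LAT

theorem aFI_PAI : Pool.Agent.FI.PAI_stmt :=
  Pool.Agent.FI.PAI aFI_FFC

theorem aFJ_PSM : Pool.Agent.FJ.PSM_stmt :=
  Pool.Agent.FJ.PSM aFI_PAI aFJ_BDZ

theorem aFJ_CZG : Pool.Agent.FJ.CZG_stmt :=
  Pool.Agent.FJ.CZG aFI_FFC

theorem aFJ_CPN : Pool.Agent.FJ.CPN_stmt :=
  Pool.Agent.FJ.CPN aFJ_CZP aFJ_CZG aFJ_BDZ aFJ_BDG aFI_FFC

theorem aFJ_BDN : Pool.Agent.FJ.BDN_stmt :=
  Pool.Agent.FJ.BDN aFJ_BDZ aFJ_CZP aFI_FFC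

theorem aFJ_VAN : Pool.Agent.FJ.VAN_stmt :=
  Pool.Agent.FJ.VAN aFJ_GPT aFI_FFC

theorem aFJ_REN : Pool.Agent.FJ.REN_stmt :=
  Pool.Agent.FJ.REN aFJ_GPT aFI_FFC

theorem aFJ_GCL : Pool.Agent.FJ.GCL_stmt :=
  Pool.Agent.FJ.GCL aFJ_GPT aFI_FFC

theorem aFJ_WPN : Pool.Agent.FJ.WPN_stmt :=
  Pool.Agent.FJ.WPN aFJ_GPT aFJ_VAN aFJ_REN aFJ_GCL

theorem aFJ_WBN : Pool.Agent.FJ.WBN_stmt :=
  Pool.Agent.FJ.WBN aFJ_PSM aFJ_CPN aFJ_BDN aFJ_WPN aFI_FFC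

theorem aFJ_CHX : Pool.Agent.FJ.CHX_stmt :=
  Pool.Agent.FJ.CHX

theorem aFJ_PAD : Pool.Agent.FJ.PAD_stmt :=
  Pool.Agent.FJ.PAD aFI_FFC

theorem aFJ_CMZ : Pool.Agent.FJ.CMZ_stmt :=
  Pool.Agent.FJ.CMZ

theorem aFJ_GSB : Pool.Agent.FJ.GSB_stmt :=
  Pool.Agent.FJ.GSB

theorem aFJ_GPS : Pool.Agent.FJ.GPS_stmt :=
  Pool.Agent.FJ.GPS aFJ_PAD aFJ_CMZ aFJ_GSB

theorem aFJ_KIJ : Pool.Agent.FJ.KIJ_stmt :=
  Pool.Agent.FJ.KIJ aFI_FFC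

theorem aFJ_CSF : Pool.Agent.FJ.CSF_stmt :=
  Pool.Agent.FJ.CSF

theorem aFJ_PLX : Pool.Agent.FJ.PLX_stmt :=
  Pool.Agent.FJ.PLX

theorem aFJ_CNV : Pool.Agent.FJ.CNV_stmt :=
  Pool.Agent.FJ.CNV

theorem aFJ_GPL : Pool.Agent.FJ.GPL_stmt :=
  Pool.Agent.FJ.GPL aFI_PAI aFJ_CMZ aFJ_KIJ aFJ_CSF aFJ_PLX aFJ_CNV

theorem aFJ_LSA : Pool.Agent.FJ.LSA_stmt :=
  Pool.Agent.FJ.LSA

theorem aFJ_LSB : Pool.Agent.FJ.LSB_stmt :=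
  Pool.Agent.FJ.LSB

theorem aFJ_PHK : Pool.Agent.FJ.PHK_stmt :=
  Pool.Agent.FJ.PHK

theorem aFJ_LSM : Pool.Agent.FJ.LSM_stmt :=
  Pool.Agent.FJ.LSM aFJ_GPT aFJ_LSA aFJ_LSB aFJ_PHK

theorem aFJ_LSQ : Pool.Agent.FJ.LSQ_stmt :=
  Pool.Agent.FJ.LSQ aFJ_GPT aFJ_LSA aFJ_LSB aFJ_PHK

theorem aFJ_WFN : Pool.Agent.FJ.WFN_stmt :=
  Pool.Agent.FJ.WFN aFI_LAT aFJ_WBN aFJ_CHX aFJ_GPS aFJ_GPL aFJ_LSM aFJ_LSQ

theorem aFJ_T2N : Pool.Agent.FJ.T2N_stmt :=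
  Pool.Agent.FJ.T2N aFI_TDW aFJ_WFN

theorem aFJ_TYN : Pool.Agent.FJ.TYN_stmt :=
  Pool.Agent.FJ.TYN aFI_DVE aFI_DVU aFI_SIZ aFI_FFC aFJ_CZP aFI_TDW aFJ_NPW aFJ_T2N

theorem aFJ_RDP : Pool.Agent.FJ.RDP_stmt :=
  Pool.Agent.FJ.RDP aFI_LMA aFJ_LMN aFI_VGI aFJ_TIN aFJ_ROO aFJ_TYN aFI_SIZ

theorem aFI_PPW : Pool.Agent.FI.PPW_stmt :=
  Pool.Agent.FI.PPW aFI_SIZ aFI_CN1

theorem aFI_PPX : Pool.Agent.FI.PPX_stmt :=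
  Pool.Agent.FI.PPX aFI_SIZ aFI_CN1

theorem aFI_FL2 : Pool.Agent.FI.FL2_stmt :=
  Pool.Agent.FI.FL2

theorem aFI_YYB : Pool.Agent.FI.YYB_stmt :=
  Pool.Agent.FI.YYB

theorem aFI_GBA : Pool.Agent.FI.GBA_stmt :=
  Pool.Agent.FI.GBA aFI_YYB

theorem aFI_GBB : Pool.Agent.FI.GBB_stmt :=
  Pool.Agent.FI.GBB aFI_GBA aFI_SIZ

theorem aFI_GBR : Pool.Agent.FI.GBR_stmt :=
  Pool.Agent.FI.GBR

theorem aFI_GRP : Pool.Agent.FI.GRP_stmt :=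
  Pool.Agent.FI.GRP

theorem aFI_CNU : Pool.Agent.FI.CNU_stmt :=
  Pool.Agent.FI.CNU

theorem aFI_ORT : Pool.Agent.FI.ORT_stmt :=
  Pool.Agent.FI.ORT aFI_GRP aFI_CNU

theorem aFJ_FJK : Pool.Agent.FJ.FJK_stmt :=
  Pool.Agent.FJ.FJK

theorem aFJ_FEJ : Pool.Agent.FJ.FEJ_stmt :=
  Pool.Agent.FJ.FEJ aFJ_FJK

theorem aBP_SCW : Pool.Agent.BP.SCW_stmt :=
  Pool.Agent.BP.SCW

theorem aFJ_SCD : Pool.Agent.FJ.SCD_stmt :=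
  Pool.Agent.FJ.SCD aBP_SCW

theorem aFJ_GDF : Pool.Agent.FJ.GDF_stmt :=
  Pool.Agent.FJ.GDF aFJ_FEJ aFJ_SCD aFI_YYB

theorem aHK_VAR : Pool.Agent.HK.VAR_stmt :=
  Pool.Agent.HK.VAR

theorem aHK_TVL : Pool.Agent.HK.TVL_stmt :=
  Pool.Agent.HK.TVL

theorem aHK_TV2 : Pool.Agent.HK.TV2_stmt :=
  Pool.Agent.HK.TV2 aHK_TVL

theorem aBP_VTT : Pool.Agent.BP.VTT_stmt :=
  Pool.Agent.BP.VTT aHK_TV2

theorem aBP_SMA : Pool.Agent.BP.SMA_stmt :=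
  Pool.Agent.BP.SMA aHK_VAR aBP_VTT aFI_SIZ

theorem aHK_VAB : Pool.Agent.HK.VAB_stmt :=
  Pool.Agent.HK.VAB aHK_TV2

theorem aHK_WCH : Pool.Agent.HK.WCH_stmt :=
  Pool.Agent.HK.WCH

theorem aHK_MUL : Pool.Agent.HK.MUL_stmt :=
  Pool.Agent.HK.MUL aFI_FDE aFI_FDU aFI_SIZ

theorem aHK_UCH : Pool.Agent.HK.UCH_stmt :=
  Pool.Agent.HK.UCH

theorem aHK_SRF : Pool.Agent.HK.SRF_stmt :=
  Pool.Agent.HK.SRF aFI_SIZ aFI_FFC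

theorem aHK_PPR : Pool.Agent.HK.PPR_stmt :=
  Pool.Agent.HK.PPR aHK_VAR aHK_VAB aHK_WCH aHK_MUL aHK_UCH aHK_SRF aFI_SIZ

theorem aBP_SMB : Pool.Agent.BP.SMB_stmt :=
  Pool.Agent.BP.SMB aHK_VAR aBP_VTT aHK_PPR aFI_SIZ aHK_SRF

theorem aBP_PF1 : Pool.Agent.BP.PF1_stmt :=
  Pool.Agent.BP.PF1 aBP_SMA aBP_SMB aHK_SRF

theorem aCH_VMV : Pool.Agent.CH.VMV_stmt :=
  Pool.Agent.CH.All.VMV_all

theorem aCH_DH : Pool.Agent.CH.DH_stmt :=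
  Pool.Agent.CH.All.DH_all

theorem aCH_TJ : Pool.Agent.CH.TJ_stmt :=
  Pool.Agent.CH.All.TJ_all

theorem aBP_LOB : Pool.Agent.BP.LOB_stmt :=
  Pool.Agent.BP.LOB aCH_VMV aCH_DH aCH_TJ

theorem aBP_DYB : Pool.Agent.BP.DYB_stmt :=
  Pool.Agent.BP.DYB aBP_LOB

theorem aBP_NDG : Pool.Agent.BP.NDG_stmt :=
  Pool.Agent.BP.NDG

theorem aBP_RWB : Pool.Agent.BP.RWB_stmt :=
  Pool.Agent.BP.RWB aBP_DYB aBP_NDG

theorem aBP_CHB : Pool.Agent.BP.CHB_stmt :=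
  Pool.Agent.BP.CHB aBP_RWB aBP_SCW

theorem aBP_CHT : Pool.Agent.BP.CHT_stmt :=
  Pool.Agent.BP.CHT aBP_CHB aBP_SMA aBP_SMB

theorem aCH_RC : Pool.Agent.CH.RC_stmt :=
  Pool.Agent.CH.All.RC_all

theorem aBP_RTC : Pool.Agent.BP.RTC_stmt :=
  Pool.Agent.BP.RTC aCH_RC

theorem aBP_HSF : Pool.Agent.BP.HSF_stmt :=
  Pool.Agent.BP.HSF

theorem aBP_RGB : Pool.Agent.BP.RGB_stmt :=
  Pool.Agent.BP.RGB aBP_HSF

theorem aBP_RDB : Pool.Agent.BP.RDB_stmt :=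
  Pool.Agent.BP.RDB aBP_RTC aBP_RGB

theorem aHK_TFO : Pool.Agent.HK.TFO_stmt :=
  Pool.Agent.HK.TFO

theorem aGD_G1 : GD.G1_stmt :=
  GD.G1_thm

theorem aGD_G2 : GD.G2_stmt :=
  GD.G2_main aGD_G1

theorem aBP_FZB : Pool.Agent.BP.FZB_stmt :=
  Pool.Agent.BP.FZB aGD_G2

theorem aBP_RLB : Pool.Agent.BP.RLB_stmt :=
  Pool.Agent.BP.RLB aHK_TFO aBP_RDB aBP_FZB

theorem aBP_RMB : Pool.Agent.BP.RMB_stmt :=
  Pool.Agent.BP.RMB aBP_RDB aBP_RLB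

theorem aBP_MMB : Pool.Agent.BP.MMB_stmt :=
  Pool.Agent.BP.MMB aBP_RMB aBP_HSF

theorem aBP_FSB : Pool.Agent.BP.FSB_stmt :=
  Pool.Agent.BP.FSB

theorem aBP_VMG : Pool.Agent.BP.VMG_stmt :=
  Pool.Agent.BP.VMG aBP_MMB aBP_FSB

theorem aHK_RSP : Pool.Agent.HK.RSP_stmt :=
  Pool.Agent.HK.RSP aHK_MUL aFI_SIZ

theorem aHK_RIN : Pool.Agent.HK.RIN_stmt :=
  Pool.Agent.HK.RIN aHK_MUL aFI_SIZ

theorem aBP_GPP : Pool.Agent.BP.GPP_stmt :=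
  Pool.Agent.BP.GPP aHK_RSP aHK_RIN aFI_THU

theorem aBP_GFM : Pool.Agent.BP.GFM_stmt :=
  Pool.Agent.BP.GFM

theorem aBP_MUE : Pool.Agent.BP.MUE_stmt :=
  Pool.Agent.BP.MUE aBP_GPP aBP_GFM aFI_SIZ

theorem aHK_CVR : Pool.Agent.HK.CVR_stmt :=
  Pool.Agent.HK.CVR

theorem aHK_CME : Pool.Agent.HK.CME_stmt :=
  Pool.Agent.HK.CME

theorem aHK_TRI : Pool.Agent.HK.TRI_stmt :=
  Pool.Agent.HK.TRI aHK_RSP aHK_RIN aHK_CVR aHK_CME aFI_THU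

theorem aHK_CNP : Pool.Agent.HK.CNP_stmt :=
  Pool.Agent.HK.CNP aHK_RSP aHK_RIN aFI_THU aFI_SIZ

theorem aBP_MMS : Pool.Agent.BP.MMS_stmt :=
  Pool.Agent.BP.MMS aBP_VMG aBP_CHT aBP_MUE aHK_TRI aHK_UCH aHK_CNP aHK_SRF

theorem aBP_PF2 : Pool.Agent.BP.PF2_stmt :=
  Pool.Agent.BP.PF2 aBP_CHT aBP_MMS aHK_SRF

theorem aBP_PRC : Pool.Agent.BP.PRC_stmt :=
  Pool.Agent.BP.PRC aFI_FDE aFI_FDU aFI_CN2 aFI_SIZ

theorem aBP_FJB : Pool.Agent.BP.FJB_stmt :=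
  Pool.Agent.BP.FJB

theorem aBP_CLP : Pool.Agent.BP.CLP_stmt :=
  Pool.Agent.BP.CLP aFI_SIZ

theorem aBP_TDM : Pool.Agent.BP.TDM_stmt :=
  Pool.Agent.BP.TDM aFI_SIZ aFI_CN1 aSK_TAM

theorem aBP_MVH : Pool.Agent.BP.MVH_stmt :=
  Pool.Agent.BP.MVH aBP_FJB aBP_CLP aBP_TDM aFI_YYB aFI_FFC

theorem aBP_PF3 : Pool.Agent.BP.PF3_stmt :=
  Pool.Agent.BP.PF3 aBP_PRC aBP_MVH aHK_UCH aHK_SRF

theorem aBP_CMB : Pool.Agent.BP.CMB_stmt :=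
  Pool.Agent.BP.CMB

theorem aBP_KEB : Pool.Agent.BP.KEB_stmt :=
  Pool.Agent.BP.KEB aBP_PF1 aBP_PF2 aBP_PF3 aBP_CMB

theorem aBP_HBI : Pool.Agent.BP.HBI_stmt :=
  Pool.Agent.BP.HBI

theorem aBP_PDC : Pool.Agent.BP.PDC_stmt :=
  Pool.Agent.BP.PDC

theorem aHK_LGC : Pool.Agent.HK.LGC_stmt :=
  Pool.Agent.HK.LGC

theorem aBP_KYD : Pool.Agent.BP.KYD_stmt :=
  Pool.Agent.BP.KYD aBP_HBI aBP_PDC aBP_MUE aHK_LGC

theorem aSK_TRB : Pool.Agent.SK.TRB_stmt :=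
  Pool.Agent.SK.sk_TRB

theorem aBP_THF : Pool.Agent.BP.THF_stmt :=
  Pool.Agent.BP.THF aSK_TRB aSK_THB

theorem aBP_FTB : Pool.Agent.BP.FTB_stmt :=
  Pool.Agent.BP.FTB aBP_THF

theorem aBP_KEY : Pool.Agent.BP.KEY_stmt :=
  Pool.Agent.BP.KEY aBP_KEB aBP_KYD aBP_FTB aBP_THF aHK_TRI aHK_UCH aHK_SRF aFI_FFC aSK_THB

theorem aFJ_KEY : Pool.Agent.FJ.KEY_stmt := by
  intro η h0 h1 A B Kd
  obtain ⟨x₀, h⟩ := aBP_KEY η A B Kd h0 h1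
  refine ⟨x₀, fun x hx d hd hdB ψ hψ j i hj hi α hα0 hα1 hU M hM v δ h2 h3 h4 h5 => ?_⟩
  exact h x hx d hd hdB ψ hψ j i hj hi α hα0 hα1 hU M hM v δ h2 h3 h4 h5

theorem aHK_RSQ : Pool.Agent.HK.RSQ_stmt :=
  Pool.Agent.HK.RSQ

theorem aHK_RCH : Pool.Agent.HK.RCH_stmt :=
  Pool.Agent.HK.RCH aHK_RSQ aFI_THU

theorem aHK_APW : Pool.Agent.HK.APW_stmt :=
  Pool.Agent.HK.APW

theorem aHK_REL : Pool.Agent.HK.REL_stmt :=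
  Pool.Agent.HK.REL aHK_RCH aHK_CNP aHK_APW aHK_SRF aFI_SIZ

theorem aHK_ABL : Pool.Agent.HK.ABL_stmt :=
  Pool.Agent.HK.ABL

theorem aHK_LIP : Pool.Agent.HK.LIP_stmt :=
  Pool.Agent.HK.LIP aHK_ABL

theorem aHK_POL : Pool.Agent.HK.POL_stmt :=
  Pool.Agent.HK.POL

theorem aHK_LOW : Pool.Agent.HK.LOW_stmt :=
  Pool.Agent.HK.LOW aHK_TFO aHK_ABL aHK_LIP aHK_POL

theorem aHK_RCS : Pool.Agent.HK.RCS_stmt :=
  Pool.Agent.HK.RCS aHK_LGC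

theorem aHK_GGB : Pool.Agent.HK.GGB_stmt :=
  Pool.Agent.HK.GGB aHK_RCS aHK_ABL

theorem aHK_ABS : Pool.Agent.HK.ABS_stmt :=
  Pool.Agent.HK.ABS aHK_LOW aHK_GGB

theorem aHK_PNP : Pool.Agent.HK.PNP_stmt :=
  Pool.Agent.HK.PNP aHK_VAR aHK_VAB aFI_SIZ

theorem aHK_CPX : Pool.Agent.HK.CPX_stmt :=
  Pool.Agent.HK.CPX aHK_ABS aHK_TRI aHK_PNP aHK_PPR aHK_UCH aHK_SRF

theorem aFI_HKP : Pool.Agent.FI.HKP_stmt :=
  Pool.Agent.HK.HKP aHK_REL aHK_CPX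

theorem aFI_HKT : Pool.Agent.FI.HKT_stmt :=
  Pool.Agent.HK.HKT aHK_APW aHK_CNP aHK_SRF

theorem aFJ_HKW : Pool.Agent.FJ.HKW_stmt :=
  Pool.Agent.FJ.HKW aFI_HKP aFI_HKT

theorem aFI_FOU : Pool.Agent.FI.FOU_stmt :=
  Pool.Agent.FI.FOU

theorem aFJ_GDT : Pool.Agent.FJ.GDT_stmt :=
  Pool.Agent.FJ.GDT aFI_ORT aFJ_GDF aFJ_KEY aFJ_HKW aFI_FOU

theorem aFJ_TNP : Pool.Agent.FJ.TNP_stmt :=
  Pool.Agent.FJ.TNP

theorem aFJ_GDS : Pool.Agent.FJ.GDS_stmt :=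
  Pool.Agent.FJ.GDS aFJ_GDT aFJ_TNP aFI_SIZ

theorem aFJ_GXP : Pool.Agent.FJ.GXP_stmt :=
  Pool.Agent.FJ.GXP aFI_GBB aFI_GBR aFJ_GDS

theorem aFI_KPR : Pool.Agent.FI.KPR_stmt :=
  Pool.Agent.FI.KPR

theorem aFJ_MTP : Pool.Agent.FJ.MTP_stmt :=
  Pool.Agent.FJ.MTP aFI_FL2 aFJ_GXP aFI_KPR aFI_KAP

theorem aFI_KPS : Pool.Agent.FI.KPS_stmt :=
  Pool.Agent.FI.KPS

theorem aFJ_MSP : Pool.Agent.FJ.MSP_stmt :=
  Pool.Agent.FJ.MSP aFJ_RDP aFI_PPW aFI_PPX aFI_KAP aFJ_MTP aFI_KPS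

theorem aFJ_MAP : Pool.Agent.FJ.MAP_stmt :=
  Pool.Agent.FJ.MAP aFJ_MSP aFI_KPS

theorem aFIP_M8 : Pool.Agent.FIP.M8_stmt :=
  Pool.Agent.FIP.M8

theorem aFIP_PSV : Pool.Agent.FIP.PSV_stmt :=
  Pool.Agent.FIP.PSV aFIP_M8

theorem aFIP_PFA : Pool.Agent.FIP.PFA_stmt :=
  Pool.Agent.FIP.PFA

theorem aFJ_PMW : Pool.Agent.FJ.PMW_stmt :=
  Pool.Agent.FJ.PMW aFJ_MAP aFI_KPS

theorem aFJ_PAP : Pool.Agent.FJ.PAP_stmt :=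
  Pool.Agent.FJ.PAP aFIP_PSV aFIP_PFA aFJ_PMW

theorem aFJ_PSP : Pool.Agent.FJ.PSP_stmt :=
  Pool.Agent.FJ.PSP aFIP_M8

theorem aFJ_PBP : Pool.Agent.FJ.PBP_stmt :=
  Pool.Agent.FJ.PBP aFJ_PSP aFJ_PMW

end Pool.Agent.FJAsm
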