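import Pool.Agent.helper95.FI.SpecV

/-!
# Project fj (MP_ad8ced_nt, theorem B+), Spec C: the narrow sector `a ≤ A`, `x^(2/3+η) ≤ A ≤ x`: counting

RULES.  File `Pool/Agent/<seat>/FJ/XX.lean`, `import Pool.Agent.helper95.FJ.SpecC` (or the Spec file which contains the row),
`namespace Pool.Agent.FJ`, `open Finset Pool.Agent.FI`, `theorem XX (h1 : YY_stmt) ... : XX_stmt`, auxiliary lemmas prefixed `XX_` (private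
where possible).  Never change this file.  If a statement is wrong tell helper95 at once.  No `convert` / `congr!`, no straight double quotes.
Other statements may be used as hypotheses only; the rows of project fi (FFC, PAI, BDY, COP, WPR, SEC, PLN, LS1, LS2, LSP, CN1, TDW, ...) are PROVED:
`Pool/Agent/*/FI/XX.lean`, `theorem Pool.Agent.FI.XX`; most rows below are copies of them, so open the named file first (public lemmas may be imported).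

Notation (SpecT): `z = (r, s)`, `w = (u, v)`, `lc z w = r v + s u`, `ac z w = r u + 8 s v`, `dl z z' = s r' - s' r`; `ZD N` = primitive `z ∈ Fd` with
`N < nn z ≤ 2N`, there `r² ≤ 4N`, `s² ≤ 2N`, and `|r| ≥ √N` or `8|s| ≥ √N` (BDY_coef in helper40/FI/BDY.lean).
`sp z z' = r r' - 8 s s'` is the scalar product: `z' cj z = (sp, -dl)`, so `N8 z * r' = r sp - 8 s dl`, `N8 z * s' = s sp - r dl`, `sp² - 8 dl² = N8 z * N8 z'`,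
`dl * ac z w = sp * lc z w - N8 z * lc z' w`, `dl * ac z' w = N8 z' * lc z w - sp * lc z' w` (`ring`).
-/

set_option autoImplicit false

open Finset

noncomputable section

namespace Pool.Agent.FJ

open Pool.Agent.FI

/-- the scalar product -/
def sp (z z' : ℤ × ℤ) : ℤ := z.1 * z'.1 - 8 * z.2 * z'.2

/-- the geometric points of `(x, 2x]` -/
def gp (x K i : ℕ) : ℕ := ⌊(x : ℝ) * (2 : ℝ) ^ ((i : ℝ) / K)⌋₊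

/-- the cell `i < K` of `(x, 2x]` -/
def cl (x K i : ℕ) : Finset ℤ := Ioc (gp x K i : ℤ) (gp x K (i + 1))

/-- `(l₁, l₂)` lies in cells `(i, j)` with `i` in the coarse block `b` and `j - i = m` -/
def InC (x K₃ K₄ b : ℕ) (m : ℤ) (l₁ l₂ : ℤ) : Prop :=
  ∃ i ∈ Ico (b * K₄) ((b + 1) * K₄), ∃ j ∈ range (K₃ * K₄), (j : ℤ) - i = m ∧ l₁ ∈ cl x (K₃ * K₄) i ∧ l₂ ∈ cl x (K₃ * K₄) j

open scoped Classical in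
/-- the relevant pairs -/
def Pr (x N A K₁ : ℕ) : Finset ((ℤ × ℤ) × (ℤ × ℤ)) :=
  {p ∈ ZD N ×ˢ ZD N | N * A < K₁ * (x * (dl p.1 p.2).natAbs) ∧ x * (dl p.1 p.2).natAbs ≤ N * A}

open scoped Classical in
/-- the relevant differences of cells: `2^(m/K)` is close to `sp/N8 z` -/
def Mz (x K A : ℕ) (z z' : ℤ × ℤ) : Finset ℤ :=
  {m ∈ Ioo (-(K : ℤ)) K | |(sp z z' : ℝ) - N8 z * (2 : ℝ) ^ ((m : ℝ) / K)| ≤ 2 * A * (dl z z').natAbs / x}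

open scoped Classical in
/-- the `w` close to the boundary -/
def bdN (x R A K₃ : ℕ) (z z' : ℤ × ℤ) : Finset (ℤ × ℤ) :=
  {w ∈ Bx R | (x : ℤ) < lc z w ∧ (x : ℤ) < lc z' w ∧ |ac z w| ≤ 2 * A ∧ |ac z' w| ≤ 2 * A ∧
    (K₃ * |ac z w| ≤ 4 * A ∨ K₃ * |ac z w - A| ≤ 4 * A ∨ K₃ * |ac z' w| ≤ 4 * A ∨ K₃ * |ac z' w - A| ≤ 4 * A)}

open scoped Classical in
/-- the sum over the cells `(i, j)`, `i` in the coarse block `b`, `j - i = m`, and a residue class -/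
def Eg (x K₃ K₄ : ℕ) (lam : ℤ → ℝ) (b : ℕ) (m : ℤ) (D : ℕ) (ω : ℤ) : ℝ :=
  ∑ i ∈ Ico (b * K₄) ((b + 1) * K₄), ∑ j ∈ (range (K₃ * K₄)).filter fun j : ℕ => (j : ℤ) - i = m,
    ∑ l₁ ∈ cl x (K₃ * K₄) i, ∑ l₂ ∈ cl x (K₃ * K₄) j,
      if IsCoprime l₁ (D : ℤ) ∧ (D : ℤ) ∣ l₂ - ω * l₁ then lam l₁ * lam l₂ else 0

/-- the hypotheses on the sizes: `x ≤ A √N`, `√N ≤ A`, `R ≈ x/√N` -/
def Siz (x N R A : ℕ) : Prop := 1 ≤ x ∧ 1 ≤ N ∧ 1 ≤ R ∧ 1 ≤ A ∧ A ≤ x ∧ 1156 * x ^ 2 ≤ R ^ 2 * N ∧ R ^ 2 * N ≤ 2500 * x ^ 2 ∧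
  x ^ 2 ≤ A ^ 2 * N ∧ N ≤ A ^ 2

/-- **GPT** (short, medium; the cells).  `y_i = x 2^(i/K)` is increasing, `y_0 = x`, `y_K = 2x`; for an integer `l`: `⌊y⌋₊ < l ↔ y < l`, `l ≤ ⌊y⌋₊ ↔ l ≤ y` (`y ≥ 0`).
Size: `y_(i+1) - y_i = x 2^(i/K) (2^(1/K) - 1) ≤ 2x/K` since `2^t ≤ 1 + t` for `0 ≤ t ≤ 1`. -/
def GPT_stmt : Prop := ∀ x K : ℕ, 1 ≤ x → 1 ≤ K →
  gp x K 0 = x ∧ gp x K K = 2 * x ∧ (∀ i j : ℕ, i ≤ j → gp x K i ≤ gp x K j) ∧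
  (∀ (i : ℕ) (l : ℤ), l ∈ cl x K i ↔ (x : ℝ) * (2 : ℝ) ^ ((i : ℝ) / K) < l ∧ (l : ℝ) ≤ (x : ℝ) * (2 : ℝ) ^ (((i : ℝ) + 1) / K)) ∧
  (∀ l : ℤ, (x : ℤ) < l → l ≤ 2 * x → ∃ i < K, l ∈ cl x K i) ∧
  (∀ i i' : ℕ, ∀ l : ℤ, l ∈ cl x K i → l ∈ cl x K i' → i = i') ∧
  (∀ i < K, ∀ l : ℤ, l ∈ cl x K i → (x : ℤ) < l ∧ l ≤ 2 * x) ∧
  ∀ i < K, (#(cl x K i) : ℝ) ≤ 2 * x / K + 1

open scoped Classical in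
/-- **BDZ** (short, medium).  From FFC.  As BDY (helper40/FI/BDY.lean: BDY_coef, BDY_box do everything), for one `z`. -/
def BDZ_stmt : Prop := ∃ C : ℝ, 0 < C ∧ ∀ N R : ℕ, 1 ≤ N → 1 ≤ R → ∀ z ∈ ZD N, ∀ (T : ℤ) (Y : ℝ), 0 ≤ Y →
  (#{w ∈ Bx R | |(ac z w : ℝ) - T| ≤ Y} : ℝ) ≤ C * (R * (Y / √N + 1))

open scoped Classical in
/-- **BDG** (short).  From BDZ.  `w = g w'`, `w' ∈ Bx (R/g)`, `w' ≠ 0` (so `g ≤ R`, `R' = R/g ≥ 1`), `|ac z w'| ≤ Y/g`. -/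
def BDG_stmt : Prop := ∃ C : ℝ, 0 < C ∧ ∀ N R g : ℕ, 1 ≤ N → 1 ≤ R → 1 ≤ g → ∀ z ∈ ZD N, ∀ Y : ℝ, 0 ≤ Y →
  (#{w ∈ Bx R | w ≠ 0 ∧ (g : ℤ) ∣ w.1 ∧ (g : ℤ) ∣ w.2 ∧ |(ac z w : ℝ)| ≤ Y} : ℝ) ≤ C * (R / g * (Y / (g * √N) + 1))

open scoped Classical in
/-- **CZP** (short, medium).  From FFC.  `x < |r₀ v + s₀ u| ≤ 2√N (|u| + |v|)`, so `max (|u|, |v|) ≥ x/(4√N)`.  If `|u| ≥ x/(4√N)`: fix `s` (at most `2√(2N) + 1` values), `r` lies in an interval of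
length `2Y/|u| ≤ 8Y√N/x`.  If `|v| ≥ x/(4√N)`: fix `r`, `s` lies in an interval of length `2Y/(8|v|)`. -/
def CZP_stmt : Prop := ∃ C : ℝ, 0 < C ∧ ∀ N x : ℕ, 1 ≤ N → 1 ≤ x → ∀ z₀ ∈ ZD N, ∀ w : ℤ × ℤ, (x : ℤ) < lc z₀ w → ∀ (T : ℤ) (Y : ℝ), 0 ≤ Y →
  (#{z ∈ ZD N | |(ac z w : ℝ) - T| ≤ Y} : ℝ) ≤ C * (√N * (Y * √N / x + 1))

open scoped Classical in
/-- **CZG** (medium).  From FFC.  As CZP, with the congruence `g ∣ r v + s u`, `g` prime, `g` does not divide both of `u`, `v`.  Case `|u| ≥ x/(4√N)`: if `g ∤ v`: for fixed `s` the residue of `r` modulo `g` is determined: `(4√N+1)(8Y√N/(xg) + 1)`;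
if `g ∣ v` then `g ∤ u`, so `g ∣ s`: `(4√N/g + 1)(8Y√N/x + 1)`.  Case `|v| ≥ x/(4√N)` similar (`g ∤ u`: `s` is determined modulo `g` by `r`; `g ∣ u`: `g ∣ r`).  `Y ≤ x`, so `Y√N/x ≤ √N`.  (COP_cls, COP_fib in helper46/FI/COP.lean.) -/
def CZG_stmt : Prop := ∃ C : ℝ, 0 < C ∧ ∀ N x g : ℕ, 1 ≤ N → 1 ≤ x → g.Prime → ∀ z₀ ∈ ZD N, ∀ w : ℤ × ℤ, (x : ℤ) < lc z₀ w →
  ¬ ((g : ℤ) ∣ w.1 ∧ (g : ℤ) ∣ w.2) → ∀ Y : ℝ, 0 ≤ Y → Y ≤ x →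
  (#{z ∈ ZD N | |(ac z w : ℝ)| ≤ Y ∧ (g : ℤ) ∣ lc z w} : ℝ) ≤ C * (N * Y / (x * g) + √N)

open scoped Classical in
/-- **CPN** (medium; a common prime factor).  From CZP, CZG, BDZ, BDG, FFC.  There are at most `log (2x)/log 2` primes `g ∣ lc z w`.  (i) `g` does not divide both coordinates of `w`: the pairs `(z,w)` with `|ac z w| ≤ A`: at most
`50 N · C R (A/√N + 1) ≤ C' x A` (BDZ; `R ≤ 50x/√N`, `√N ≤ A`), for each `(z,w,g)` CZG with `Y = A`: `C (N A/(x Z) + √N)`; total `C (1 + log x)(N A²/Z + x A √N)`.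
(ii) `g ∣ w` (`w` is odd, so `≠ 0`): for each `z` BDG with `Y = A`, sum over `Z < g ≤ R`: `C R (A/(Z √N) + 1 + log R)`, for each `(z, w)` CZP: `C √N (A √N/x + 1) ≤ 2C N A/x`; total `C N · (50x/√N) (A/(Z√N) + 1 + log R) · N A/x`. -/
def CPN_stmt : Prop := ∃ C : ℝ, 0 < C ∧ ∀ x N R A Z : ℕ, Siz x N R A → 1 ≤ Z →
  (#{t ∈ (ZD N ×ˢ ZD N) ×ˢ Bx R | t.2.1 % 2 = 1 ∧ (x : ℤ) < lc t.1.1 t.2 ∧ lc t.1.1 t.2 ≤ 2 * x ∧ |ac t.1.1 t.2| ≤ A ∧ |ac t.1.2 t.2| ≤ A ∧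
      ∃ g : ℕ, g.Prime ∧ Z < g ∧ (g : ℤ) ∣ lc t.1.1 t.2 ∧ (g : ℤ) ∣ lc t.1.2 t.2} : ℝ)
    ≤ C * (1 + Real.log x) * (N * A ^ 2 / Z + x * A * √N + N * √N * A)

/-- **BDN** (short, medium).  From BDZ, CZP, FFC.  For `T ∈ {0, A}` the pairs `(z, w)` with `|ac z w - T| ≤ 4A/K₃`: at most `50N · C R (4A/(K₃√N) + 1)`, and for each the `z'` with `|ac z' w| ≤ 2A`: CZP,
`C √N (2A√N/x + 1) ≤ 3C N A/x`; `R ≤ 50 x/√N`.  The other two cases by symmetry. -/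
def BDN_stmt : Prop := ∃ C : ℝ, 0 < C ∧ ∀ x N R A K₃ : ℕ, Siz x N R A → 1 ≤ K₃ →
  ∑ p ∈ ZD N ×ˢ ZD N, (#(bdN x R A K₃ p.1 p.2) : ℝ) ≤ C * (N * A * (A / K₃ + √N))

open scoped Classical in
/-- **PSM** (short).  From PAI (`D = N A/(K₁ x)`, natural division), BDZ.  `C N (N A/(K₁ x) + 1) · C R (A/√N + 1)`, `R ≤ 50 x/√N`, `√N ≤ A`. -/
def PSM_stmt : Prop := ∃ C : ℝ, 0 < C ∧ ∀ x N R A K₁ : ℕ, Siz x N R A → 1 ≤ K₁ →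
  ∑ p ∈ ZD N ×ˢ ZD N with K₁ * (x * (dl p.1 p.2).natAbs) ≤ N * A, (#{w ∈ Bx R | |ac p.1 w| ≤ A} : ℝ) ≤ C * (N * A ^ 2 / K₁ + x * A)

open scoped Classical in
/-- **PAD** (short, medium).  From FFC.  As PAI (helper34/FI/PAI.lean, PAI_k): at most `13` elements `z'` for each `z` and each of the values `± D`. -/
def PAD_stmt : Prop := ∃ C : ℝ, 0 < C ∧ ∀ N D : ℕ, 1 ≤ N → (#{p ∈ ZD N ×ˢ ZD N | (dl p.1 p.2).natAbs = D} : ℝ) ≤ C * N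

/-- **CMZ** (short, medium).  `x |dl| ≤ N A` and `|N8 z| > N`: the numbers `2^(m/K)`, `m ∈ Mz`, lie in an interval of length `4 A |dl|/(x N) ≤ 4 A²/x²`; `2^((m+1)/K) - 2^(m/K) ≥ (1/2)(log 2)/K ≥ 1/(3K)` for `m > -K`. -/
def CMZ_stmt : Prop := ∃ C : ℝ, 0 < C ∧ ∀ x N A K₁ K : ℕ, 1 ≤ x → 1 ≤ N → 1 ≤ K → ∀ p ∈ Pr x N A K₁,
  (#(Mz x K A p.1 p.2) : ℝ) ≤ C * (1 + (A : ℝ) ^ 2 * K / x ^ 2)

/-- **VAN** (medium; variation in a cell).  From GPT, FFC.  `K = K₃ K₄`, `l₁ = lc z w`, `l₂ = lc z' w`, `ρ = l₂/l₁`, `a₁ = ac z w = l₁ (sp - N8 z ρ)/dl`, `a₂ = ac z' w = l₁ (N8 z' - sp ρ)/dl`; the same with dashes for `w'`.  Both `l₁, l₁'` are in `(x 2^(b/K₃), x 2^((b+1)/K₃)]`, so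
`|l₁ - l₁'| ≤ l₁'/K₃`; `ρ, ρ' ∈ (2^((m-1)/K), 2^((m+1)/K))`, so `|ρ - ρ'| ≤ 2 (2^(1/K) - 2^(-1/K)) ≤ 4/K`.  `a₂ - a₂' = (l₁ - l₁') a₂'/l₁' - l₁ sp (ρ - ρ')/dl`, `|sp| ≤ 20 N`, `l₁ ≤ 2x`: the last term is `≤ 160 x N/(K |dl|) ≤ 160 x² K₁/(K A) ≤ A/K₃`. Similarly for `a₁` (`|N8 z| ≤ 2N`). -/
def VAN_stmt : Prop := ∀ x N A K₁ K₃ K₄ : ℕ, 1 ≤ x → 1 ≤ N → 1 ≤ A → 1 ≤ K₁ → 1 ≤ K₃ → 1 ≤ K₄ → 160 * K₁ * x ^ 2 ≤ K₄ * A ^ 2 →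
  ∀ z ∈ ZD N, ∀ z' ∈ ZD N, N * A < K₁ * (x * (dl z z').natAbs) → ∀ b < K₃, ∀ (m : ℤ) (w w' : ℤ × ℤ),
  InC x K₃ K₄ b m (lc z w) (lc z' w) → InC x K₃ K₄ b m (lc z w') (lc z' w') →
  K₃ * |ac z w - ac z w'| ≤ |ac z w'| + A ∧ K₃ * |ac z' w - ac z' w'| ≤ |ac z' w'| + A

/-- **REN** (medium; relevance).  From GPT, FFC.  (1) `dl * N8 w = ± (l₂ a₁ - l₁ a₂)` (the second coordinate of `(z' w) cj(z w) = (z' cj z) N8 w`), `|l₂ a₁ - l₁ a₂| ≤ 2 x A` (both products are in `(0, 2xA]`), and `nn z * nn w = nn (zw) = 8 l₁² - a₁² ≥ 7x²`, `nn z ≤ 2N`, so `|dl| ≤ 4 N A/(7x)`.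
(2) `|sp - N8 z ρ| = |dl| a₁/l₁ ≤ A |dl|/x`, `|ρ - 2^(m/K)| ≤ 2/K`, `2N · 2/K ≤ 4N A²/(160 K₁ K₃ x²) ≤ A |dl|/(40 x)`. -/
def REN_stmt : Prop := ∀ x N A : ℕ, 1 ≤ x → 1 ≤ N → 1 ≤ A → A ≤ x → ∀ z ∈ ZD N, ∀ z' ∈ ZD N, ∀ w : ℤ × ℤ,
  (x : ℤ) < lc z w → lc z w ≤ 2 * x → (x : ℤ) < lc z' w → lc z' w ≤ 2 * x → 0 < ac z w → ac z w ≤ A → 0 < ac z' w → ac z' w ≤ A →
  x * (dl z z').natAbs ≤ N * A ∧ ∀ K₁ K₃ K₄ : ℕ, 1 ≤ K₁ → 1 ≤ K₃ → 1 ≤ K₄ → 160 * K₁ * x ^ 2 ≤ K₄ * A ^ 2 → N * A < K₁ * (x * (dl z z').natAbs) →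
    ∀ b < K₃, ∀ m : ℤ, InC x K₃ K₄ b m (lc z w) (lc z' w) → m ∈ Mz x (K₃ * K₄) A z z'

open scoped Classical in
/-- **GCL** (medium; the sum over a good cell).  From GPT, FFC.  As WPR_ef, WPR_in, WPR_inj in helper13/FI/WPR.lean.  All `w ∈ ℤ²` of the cell lie in `Bx R` (`w = mul8 ζ (cj z)/N8 z`, `ζ = (a₁, l₁)`).  The sum over the odd `w` is the sum over all `w` minus the sum over `w = (2u', v)`;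
by `OmOK` (`e = 1`, `e = 2`) these are sums over `l₂ ≡ om e z z' l₁ mod e dl`, `gcd(l₁, 2 dl) = gcd(l₁, dl)` for odd `l₁` (`lam l₁ ≠ 0`, `Z ≥ 2`); `l₁ ∈ cl i`, `l₂ ∈ cl j` with `i ∈ Ico (b K₄) ((b+1) K₄)`, `j < K₃ K₄`, `j - i = m` are uniquely determined (GPT). -/
def GCL_stmt : Prop := ∀ om, OmOK om → ∀ x Z N R A K₃ K₄ : ℕ, 1 ≤ x → 2 ≤ Z → 1 ≤ N → 1 ≤ R → A ≤ x → 1 ≤ K₃ → 1 ≤ K₄ → 1156 * x ^ 2 ≤ R ^ 2 * N →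
  ∀ (M : ℝ) (lam : ℤ → ℝ), LamOK x Z M lam → ∀ z ∈ ZD N, ∀ z' ∈ ZD N, dl z z' ≠ 0 → ∀ b < K₃, ∀ m : ℤ,
  (∀ w : ℤ × ℤ, InC x K₃ K₄ b m (lc z w) (lc z' w) → 0 < ac z w ∧ ac z w ≤ A ∧ 0 < ac z' w ∧ ac z' w ≤ A) →
  ∑ w ∈ Bx R with w.1 % 2 = 1 ∧ IsCoprime (lc z w) (dl z z') ∧ InC x K₃ K₄ b m (lc z w) (lc z' w), lam (lc z w) * lam (lc z' w)
    = Eg x K₃ K₄ lam b m (1 * (dl z z').natAbs) (om 1 z z') - Eg x K₃ K₄ lam b m (2 * (dl z z').natAbs) (om 2 z z')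

open scoped Classical in
/-- **WPN** (medium, long; one pair).  From GPT, VAN, REN, GCL.  `Tc` is a sum over `w` with `lam(l₁), lam(l₂) ≠ 0` (so `l₁, l₂ ∈ (x, 2x]`) and `a₁, a₂ ∈ (0, A]`: empty if `N A < x |dl|` (REN (1)).  Sort the `w` by `(b, m)`, `b < K₃`, `|m| < K₃K₄`, with `InC x K₃ K₄ b m l₁ l₂` (exactly one, GPT).  A cell is good if all
`w ∈ ℤ²` of the cell have `a₁, a₂ ∈ (0, A]`; empty if no `w` of the cell has; otherwise mixed.  Mixed: there are `w₀` with `a₁, a₂ ∈ (0,A]` and `w₁` where some `a_i ∉ (0,A]`; VAN: `|a_i(w₁) - a_i(w₀)| ≤ 2A/K₃`, so `a_i(w₀)` is within `2A/K₃` of `0` or `A`, and for every `w` of the cell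
`|a_i(w) - a_i(w₀)| ≤ 2A/K₃`: `w ∈ bdN` (`|a| ≤ A + 2A/K₃ ≤ 2A`); each such term is at most `M²`.  Good and nonempty: GCL, and `m ∈ Mz` (REN (2) for one `w` of the cell). -/
def WPN_stmt : Prop := ∀ om, OmOK om → ∀ x Z N R A K₁ K₃ K₄ : ℕ, 1 ≤ x → 2 ≤ Z → 1 ≤ N → 1 ≤ R → 1 ≤ A → A ≤ x → 1 ≤ K₁ → 2 ≤ K₃ → 1 ≤ K₄ →
  160 * K₁ * x ^ 2 ≤ K₄ * A ^ 2 → 1156 * x ^ 2 ≤ R ^ 2 * N → ∀ (M : ℝ) (lam : ℤ → ℝ), LamOK x Z M lam → ∀ z ∈ ZD N, ∀ z' ∈ ZD N,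
  N * A < K₁ * (x * (dl z z').natAbs) →
  (N * A < x * (dl z z').natAbs → Tc R A lam z z' = 0) ∧
  |Tc R A lam z z'| ≤ M ^ 2 * #(bdN x R A K₃ z z') +
    ∑ b ∈ range K₃, ∑ m ∈ Mz x (K₃ * K₄) A z z', ∑ e ∈ ({1, 2} : Finset ℕ), |Eg x K₃ K₄ lam b m (e * (dl z z').natAbs) (om e z z')|

open scoped Classical in
/-- **WBN** (medium; the decomposition).  From PSM, CPN, BDN, WPN, FFC.  As WBD (its file in Pool/Agent/*/FI/WBD.lean).  Expand the square: `WW ≤ Mβ² ∑_{z,z'} |T(z,z')|`, `T = ∑_{w ∈ Bx R, odd} lam lam ga ga`.  (1) `K₁ x |dl| ≤ N A`: trivially `M² #{w : |ac z w| ≤ A}`, PSM.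
(2) the other pairs, the `w` with `gcd(l₁, dl) > 1`: a prime `g > Z` divides `l₁`, `dl`, hence `l₂`: CPN.  (3) `Tc`: WPN (zero if `x |dl| > N A`), BDN. -/
def WBN_stmt : Prop := ∃ C : ℝ, 0 < C ∧ ∀ om, OmOK om → ∀ x Z N R A K₁ K₃ K₄ : ℕ, Siz x N R A → 2 ≤ Z → 1 ≤ K₁ → 2 ≤ K₃ → 1 ≤ K₄ →
  160 * K₁ * x ^ 2 ≤ K₄ * A ^ 2 → ∀ (M Mβ : ℝ) (lam : ℤ → ℝ) (β : ℤ × ℤ → ℝ), LamOK x Z M lam → (∀ z, |β z| ≤ Mβ) →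
  WW N R A β lam ≤ C * Mβ ^ 2 * (M ^ 2 * (N * A ^ 2 / K₁ + x * A + (1 + Real.log x) * (N * A ^ 2 / Z + x * A * √N + N * √N * A)
      + N * A * (A / K₃ + √N))
    + ∑ p ∈ Pr x N A K₁, ∑ b ∈ range K₃, ∑ m ∈ Mz x (K₃ * K₄) A p.1 p.2, ∑ e ∈ ({1, 2} : Finset ℕ),
        |Eg x K₃ K₄ lam b m (e * (dl p.1 p.2).natAbs) (om e p.1 p.2)|)

open scoped Classical in
/-- **KIJ** (medium; the second moment).  From FFC.  `y(z) = (e s, r)`; `|e s| ≤ 2√(2N)`, `|r| ≤ 2√N`.  `ρ = sp z z'/N8 z`: `r' - ρ r = -8 s dl/N8 z`, `s' - ρ s = -r dl/N8 z`, so `y(z')_i = ρ y(z)_i + ε_i`, `|ε_i| ≤ 12 |dl|/√N`; the same for `p' = (z₁, z₁')` with `ρ'`.  A common `m` of the two sets `Mz`: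
`|ρ - ρ'| ≤ 4 A |dl|/(x N) ≤ 4 |dl|/N`.  With `D = e |dl|`: `y(z')_i y(z₁)_j - y(z)_i y(z₁')_j = (ρ - ρ') y(z)_i y(z₁)_j + ε_i y(z₁)_j - y(z)_i ε'_j` is at most `100 |dl|` in absolute value, and it is divisible by `D` (`y(z') ≡ om y(z)`, `y(z₁') ≡ om' y(z₁)` modulo `D` by `OmOK` with `(u,v) = (1,0), (0,1)`; `om ≡ om'`):
it is `k_ij D`, `|k_ij| ≤ 100`.  For fixed `p` the four `k_ij` determine `y(z₁), y(z₁')`: linear systems with determinant `± e dl ≠ 0` (SEC_lin in helper68/FI/SEC.lean).  So `C = 201^4`. -/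
def KIJ_stmt : Prop := ∃ C : ℕ, ∀ om, OmOK om → ∀ x N A K₁ K : ℕ, 1 ≤ x → 1 ≤ N → A ≤ x → 1 ≤ K → ∀ e : ℕ, e = 1 ∨ e = 2 → ∀ p ∈ Pr x N A K₁,
  #{p' ∈ Pr x N A K₁ | (dl p'.1 p'.2).natAbs = (dl p.1 p.2).natAbs ∧
      ((e * (dl p.1 p.2).natAbs : ℕ) : ℤ) ∣ om e p.1 p.2 - om e p'.1 p'.2 ∧ (Mz x K A p.1 p.2 ∩ Mz x K A p'.1 p'.2).Nonempty} ≤ C

end Pool.Agent.FJ
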