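import Pool.Agent.helper95.FJ.SpecC

/-!
# Project fj (MP_ad8ced_nt, theorem B+), Spec D: characters, large sieve, the bilinear form

Rules as in SpecC (`import Pool.Agent.helper95.FJ.SpecD`, `namespace Pool.Agent.FJ`, `open Finset Pool.Agent.FI`).
`K = K₃ K₄`.  For `ω` coprime to `D`: `Eg b m D ω = φ(D)⁻¹ ∑_χ conj (χ ω) Gc χ b m`, `Gc χ b m = ∑_{i in the block b} F_(i+m)(χ) conj (F_i(χ))`,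
`F_i(χ) = Fc` = sum of `lam χ` over the cell `i`.
-/

set_option autoImplicit false

open Finset

noncomputable section

namespace Pool.Agent.FJ

open Pool.Agent.FI

/-- the character sum over a cell -/
def Fc (x K : ℕ) (lam : ℤ → ℝ) {D : ℕ} (χ : DirichletCharacter ℂ D) (i : ℕ) : ℂ := ∑ l ∈ cl x K i, (lam l : ℂ) * χ (l : ZMod D)

/-- the correlation of the cell sums over the coarse block `b` -/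
def Gc (x K₃ K₄ : ℕ) (lam : ℤ → ℝ) (b : ℕ) (m : ℤ) {D : ℕ} (χ : DirichletCharacter ℂ D) : ℂ :=
  ∑ i ∈ Ico (b * K₄) ((b + 1) * K₄), ∑ j ∈ (range (K₃ * K₄)).filter fun j : ℕ => (j : ℤ) - i = m,
    Fc x (K₃ * K₄) lam χ j * (starRingEnd ℂ) (Fc x (K₃ * K₄) lam χ i)

/-- the convolution of the cell sums over the coarse block `b` -/
def Hc (x K₃ K₄ : ℕ) (lam : ℤ → ℝ) (b j : ℕ) {D : ℕ} (χ : DirichletCharacter ℂ D) : ℂ :=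
  ∑ i ∈ Ico (b * K₄) ((b + 1) * K₄), ∑ i' ∈ (range (K₃ * K₄)).filter fun i' : ℕ => i + i' = j,
    Fc x (K₃ * K₄) lam χ i * Fc x (K₃ * K₄) lam χ i'

open scoped Classical in
/-- the part of the characters of conductor `≤ R₁` -/
def EgS (x K₃ K₄ R₁ : ℕ) (lam : ℤ → ℝ) (b : ℕ) (m : ℤ) (D : ℕ) (ω : ℤ) : ℝ :=
  ‖1 / (Nat.totient D : ℂ) * ∑ χ : DirichletCharacter ℂ D with χ.conductor ≤ R₁, (starRingEnd ℂ) (χ (ω : ZMod D)) * Gc x K₃ K₄ lam b m χ‖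

open scoped Classical in
/-- the part of the characters of conductor `> R₁` -/
def EgL (x K₃ K₄ R₁ : ℕ) (lam : ℤ → ℝ) (b : ℕ) (m : ℤ) (D : ℕ) (ω : ℤ) : ℝ :=
  ‖1 / (Nat.totient D : ℂ) * ∑ χ : DirichletCharacter ℂ D with R₁ < χ.conductor, (starRingEnd ℂ) (χ (ω : ZMod D)) * Gc x K₃ K₄ lam b m χ‖

open scoped Classical in
/-- the second moment of `lam` over the cells: primitive characters of conductor `≤ Q`, coprimality to `k ≤ x³` -/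
def SIh (x K : ℕ) (Q S : ℝ) (lam : ℤ → ℝ) : Prop := ∀ q k : ℕ, 1 ≤ q → (q : ℝ) ≤ Q → 1 ≤ k → k ≤ x ^ 3 →
  ∀ ψ : DirichletCharacter ℂ q, ψ.IsPrimitive →
  ∑ i ∈ range K, ‖∑ l ∈ cl x K i with IsCoprime l (k : ℤ), (lam l : ℂ) * ψ (l : ZMod q)‖ ^ 2 ≤ S

/-- **CHX** (medium).  As PLN (helper76/FI/PLN.lean: PLN_key, PLN_star).  For `l₁` coprime to `D` and `ω` coprime to `D`: `[D ∣ l₂ - ω l₁] = φ(D)⁻¹ ∑_χ conj (χ ω) χ(l₂) conj (χ l₁)`; for `l₁` not coprime to `D` both sides are `0`.  So `Eg = φ(D)⁻¹ ∑_χ conj (χ ω) Gc χ`,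
split by the conductor and take absolute values. -/
def CHX_stmt : Prop := ∀ (x K₃ K₄ R₁ : ℕ) (lam : ℤ → ℝ) (b : ℕ) (m : ℤ) (D : ℕ) (ω : ℤ), 1 ≤ D → IsCoprime ω (D : ℤ) →
  |Eg x K₃ K₄ lam b m D ω| ≤ EgS x K₃ K₄ R₁ lam b m D ω + EgL x K₃ K₄ R₁ lam b m D ω

open scoped Classical in
/-- **PLX** (medium).  Plancherel on `(ZMod D)ˣ` (PLN_parseval in helper76/FI/PLN.lean, or expand the square and `∑_ω χ(ω) conj (χ' ω) = φ(D) [χ = χ']`).  The second claim: `χ ω` depends on `ω` modulo `D` only. -/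
def PLX_stmt : Prop := (∀ (x K₃ K₄ R₁ : ℕ) (lam : ℤ → ℝ) (b : ℕ) (m : ℤ) (D : ℕ), 1 ≤ D →
  ∑ ω ∈ range D with Nat.Coprime ω D, EgL x K₃ K₄ R₁ lam b m D (ω : ℤ) ^ 2 =
    1 / (Nat.totient D : ℝ) * ∑ χ : DirichletCharacter ℂ D with R₁ < χ.conductor, ‖Gc x K₃ K₄ lam b m χ‖ ^ 2) ∧
  ∀ (x K₃ K₄ R₁ : ℕ) (lam : ℤ → ℝ) (b : ℕ) (m : ℤ) (D : ℕ) (ω ω' : ℤ), (D : ℤ) ∣ ω - ω' →
    EgL x K₃ K₄ R₁ lam b m D ω = EgL x K₃ K₄ R₁ lam b m D ω'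

/-- **CNV** (short, medium; correlation and convolution).  Expand both squares.  Left: `∑ F_(j₁) conj F_(i₁) conj F_(j₂) F_(i₂)` over `i₁, i₂ ∈ I`, `j₁, j₂ < K`, `j₁ - i₁ = j₂ - i₂`; right: `∑ F_(i₁) F_(j₁) conj F_(i₂) conj F_(j₂)` over `i₁ + j₁ = i₂ + j₂`.  Exchange the names of `i₁` and `i₂`
on the left.  (All differences lie in `(-K, K)`, all sums in `[0, 2K)`; `∑_m [j₁-i₁ = m][j₂-i₂ = m] = [j₁-i₁ = j₂-i₂]`.) -/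
def CNV_stmt : Prop := ∀ (K : ℕ) (I : Finset ℕ) (F : ℕ → ℂ), I ⊆ range K →
  ∑ m ∈ Ioo (-(K : ℤ)) K, ‖∑ i ∈ I, ∑ j ∈ (range K).filter fun j : ℕ => (j : ℤ) - i = m, F j * (starRingEnd ℂ) (F i)‖ ^ 2 =
    ∑ j ∈ range (2 * K), ‖∑ i ∈ I, ∑ i' ∈ (range K).filter fun i' : ℕ => i + i' = j, F i * F i'‖ ^ 2

/-- **GSB** (short).  `‖Gc‖ ≤ ∑ ‖F_j‖ ‖F_i‖ ≤ ½ ∑ (‖F_j‖² + ‖F_i‖²)`; the pairs `(i, j)`, `i, j < K`, `j - i = m` (all `b < K₃` together) meet every `i` and every `j` at most once. -/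
def GSB_stmt : Prop := ∀ (x K₃ K₄ : ℕ) (lam : ℤ → ℝ) (m : ℤ) (D : ℕ) (χ : DirichletCharacter ℂ D),
  ∑ b ∈ range K₃, ‖Gc x K₃ K₄ lam b m χ‖ ≤ ∑ i ∈ range (K₃ * K₄), ‖Fc x (K₃ * K₄) lam χ i‖ ^ 2

open scoped Classical in
/-- **LSA** (medium; reduction to primitive characters).  Copy of LS1 (helper27/FI/LS1.lean) for sums over a finite set of integers and with a condition on the conductor: `χ` modulo `D` of conductor `r` is induced by a primitive `ψ` modulo `r`, `D = r k`; `χ(n) = ψ(n)` if `gcd(n,k) = 1`, `0` otherwise;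
`φ(r k) ≥ φ(r) φ(k)`. -/
def LSA_stmt : Prop := ∀ (D₁ c₁ c₂ : ℕ) (S : Finset ℤ) (b : ℤ → ℂ),
  ∑ D ∈ Icc 1 D₁, 1 / (Nat.totient D : ℝ) * ∑ χ : DirichletCharacter ℂ D with c₁ < χ.conductor ∧ χ.conductor ≤ c₂, ‖∑ n ∈ S, b n * χ (n : ZMod D)‖ ^ 2
    ≤ ∑ k ∈ Icc 1 D₁, 1 / (Nat.totient k : ℝ) * ∑ r ∈ Ioc c₁ c₂ with r * k ≤ D₁, 1 / (Nat.totient r : ℝ) *
        ∑ ψ : DirichletCharacter ℂ r with ψ.IsPrimitive, ‖∑ n ∈ S with IsCoprime n (k : ℤ), b n * ψ (n : ZMod r)‖ ^ 2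

open scoped Classical in
/-- **LSB** (short, medium).  Copy of LS2 (helper27/FI/LS2.lean, LS2_abel) for an interval `(M₀, M₀ + N₀]`: `mult_large_sieve` of Pool/Agent/helper85/MT/MLS.lean is stated for all intervals. -/
def LSB_stmt : Prop := ∃ C : ℝ, 0 < C ∧ ∀ (Q R₀ M₀ N₀ : ℕ) (b : ℤ → ℂ), 1 ≤ R₀ →
  ∑ r ∈ Ioc R₀ Q, 1 / (Nat.totient r : ℝ) * ∑ ψ : DirichletCharacter ℂ r with ψ.IsPrimitive, ‖∑ n ∈ Ioc (M₀ : ℤ) (M₀ + N₀), b n * ψ (n : ZMod r)‖ ^ 2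
    ≤ C * (N₀ / R₀ + Q) * ∑ n ∈ Ioc (M₀ : ℤ) (M₀ + N₀), ‖b n‖ ^ 2

/-- **PHK** (short).  Inside the proof of LSP (helper27/FI/LSP.lean) or: `k/φ(k) = ∑_{d ∣ k} μ²(d)/φ(d)`. -/
def PHK_stmt : Prop := ∃ C : ℝ, 0 < C ∧ ∀ D₁ : ℕ, 1 ≤ D₁ → ∑ k ∈ Icc 1 D₁, 1 / (Nat.totient k : ℝ) ≤ C * (1 + Real.log D₁)

open scoped Classical in
/-- **LSQ** (medium; large conductors).  From GPT, LSA, LSB, PHK; compare LSP_mul, LSP_bb in helper27/FI/LSP.lean.  `K = K₃K₄`.  For fixed `b, j`: `Hc χ b j = ∑_n a_n χ(n)`, `a_n = ∑ lam(l₁) lam(l₂)` over `l₁ l₂ = n`, `l₁ ∈ cl i`, `l₂ ∈ cl i'`, `i` in the block, `i + i' = j`; by GPT `x² 2^(j/K) < n ≤ x² 2^((j+2)/K)`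
(`j ≤ 2K - 2`), an interval of at most `8x²/K + 1` integers (`2^(2/K) - 1 ≤ 2/K` for `K ≥ 2`, and `3` for `K = 1`).  LSA with `c₁ = R₁`, `c₂ = D₁`, then for each `k` LSB for `a_n [gcd(n,k) = 1]`: `C ((8x²/K + 1)/R₁ + D₁) ∑_n |a_n|²`.
For fixed `b`: `∑_j ∑_n |a_n|² ≤ M⁴ ∑_{n ≤ 4x²} τ(n)² ≤ C M⁴ x² (1 + log x)³` (for each `n` the sum over `j` of the numbers of factorisations is at most `τ(n)`; the divisor moment as in LSP).  Sum over `b < K₃`, `k ≤ D₁` (PHK). -/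
def LSQ_stmt : Prop := ∃ C : ℝ, 0 < C ∧ ∀ x K₃ K₄ D₁ R₁ : ℕ, 1 ≤ x → 1 ≤ K₃ → 1 ≤ K₄ → 1 ≤ D₁ → 1 ≤ R₁ → ∀ (M : ℝ) (lam : ℤ → ℝ), (∀ l, |lam l| ≤ M) →
  ∑ D ∈ Icc 1 D₁, 1 / (Nat.totient D : ℝ) * ∑ χ : DirichletCharacter ℂ D with R₁ < χ.conductor,
      ∑ b ∈ range K₃, ∑ j ∈ range (2 * (K₃ * K₄)), ‖Hc x K₃ K₄ lam b j χ‖ ^ 2
    ≤ C * K₃ * (1 + Real.log D₁) * ((x : ℝ) ^ 2 / (K₃ * K₄ * R₁) + D₁) * (M ^ 4 * (x ^ 2 * (1 + Real.log x) ^ 3))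

open scoped Classical in
/-- **LSM** (medium; small and medium conductors).  From GPT, LSA, LSB, PHK.  LSA with `c₁ = 0`, `c₂ = R₁` for each cell, sum over the cells.  For each `k`: conductors `r ≤ R₀`: `SIh` (at most `φ(r)` primitive characters modulo `r`): `≤ R₀ S`.  Conductors `R₀ < r ≤ R₁`: LSB for each cell
(`gp x K i`, at most `2x/K + 1 ≤ 3x/K` integers), `C (3x/(K R₀) + R₁) (3x/K) M²`, times `K` cells. -/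
def LSM_stmt : Prop := ∃ C : ℝ, 0 < C ∧ ∀ x K D₁ R₀ R₁ : ℕ, 1 ≤ x → 1 ≤ K → K ≤ x → 1 ≤ D₁ → D₁ ≤ x ^ 3 → 1 ≤ R₀ → ∀ (M S : ℝ) (lam : ℤ → ℝ),
  (∀ l, |lam l| ≤ M) → SIh x K R₀ S lam →
  ∑ D ∈ Icc 1 D₁, 1 / (Nat.totient D : ℝ) * ∑ χ : DirichletCharacter ℂ D with χ.conductor ≤ R₁, ∑ i ∈ range K, ‖Fc x K lam χ i‖ ^ 2
    ≤ C * (1 + Real.log D₁) * (R₀ * S + (x / (K * R₀) + R₁) * (x * M ^ 2))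

open scoped Classical in
/-- **CSF** (short, medium; Cauchy-Schwarz).  `c(D, ω, m)` = number of the `p ∈ P` with `D p = D`, `w p ≡ ω mod D`, `m ∈ Ms p`.  The left side is `∑ c F ≤ (∑ c²)^(1/2) (∑ F²)^(1/2)` over `D ≤ D₁`, `ω < D` coprime to `D`, `|m| < K`, and
`∑ c² = ∑_p ∑_{m ∈ Ms p} #{p' : D p' = D p, w p' ≡ w p, m ∈ Ms p'} ≤ #P k₁ k₂`. (Compare the end of SEC in helper68/FI/SEC.lean.) -/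
def CSF_stmt : Prop := ∀ (ι : Type) (P : Finset ι) (Dp : ι → ℕ) (w : ι → ℤ) (Ms : ι → Finset ℤ) (F : ℕ → ℤ → ℤ → ℝ) (D₁ K : ℕ) (k₁ k₂ : ℝ),
  0 ≤ k₁ → 0 ≤ k₂ → (∀ D ω m, 0 ≤ F D ω m) → (∀ (D : ℕ) (ω ω' m : ℤ), (D : ℤ) ∣ ω - ω' → F D ω m = F D ω' m) →
  (∀ p ∈ P, 1 ≤ Dp p ∧ Dp p ≤ D₁ ∧ IsCoprime (w p) (Dp p : ℤ) ∧ Ms p ⊆ Ioo (-(K : ℤ)) K ∧ (#(Ms p) : ℝ) ≤ k₁) →
  (∀ p ∈ P, (#{p' ∈ P | Dp p' = Dp p ∧ (Dp p : ℤ) ∣ w p - w p' ∧ (Ms p ∩ Ms p').Nonempty} : ℝ) ≤ k₂) →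
  ∑ p ∈ P, ∑ m ∈ Ms p, F (Dp p) (w p) m ≤ √(#P * k₁ * k₂) *
    √(∑ D ∈ Icc 1 D₁, ∑ ω ∈ range D with Nat.Coprime ω D, ∑ m ∈ Ioo (-(K : ℤ)) K, F D (ω : ℤ) m ^ 2)

open scoped Classical in
/-- **GPS** (short, medium; small conductors, sum over the pairs).  From PAD, CMZ, GSB.  `D = e |dl|`, `1 ≤ D ≤ 2NA/x`; `∑_b EgS ≤ φ(D)⁻¹ ∑_{χ, cond ≤ R₁} ∑_b ‖Gc χ b m‖ ≤ φ(D)⁻¹ ∑_χ ∑_i ‖Fc‖²` (GSB, `‖χ ω‖ ≤ 1`), at most `C (1 + A²K/x²)` values `m` (CMZ), at most `C N` pairs for each `D` and `e` (PAD). -/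
def GPS_stmt : Prop := ∃ C : ℝ, 0 < C ∧ ∀ om : ℕ → ℤ × ℤ → ℤ × ℤ → ℤ, ∀ x N A K₁ K₃ K₄ R₁ : ℕ, 1 ≤ x → 1 ≤ N → 1 ≤ K₃ → 1 ≤ K₄ → ∀ lam : ℤ → ℝ,
  ∑ p ∈ Pr x N A K₁, ∑ b ∈ range K₃, ∑ m ∈ Mz x (K₃ * K₄) A p.1 p.2, ∑ e ∈ ({1, 2} : Finset ℕ),
      EgS x K₃ K₄ R₁ lam b m (e * (dl p.1 p.2).natAbs) (om e p.1 p.2)
    ≤ C * (1 + (A : ℝ) ^ 2 * (K₃ * K₄) / x ^ 2) * N *
      ∑ D ∈ Icc 1 (2 * N * A / x), 1 / (Nat.totient D : ℝ) * ∑ χ : DirichletCharacter ℂ D with χ.conductor ≤ R₁, ∑ i ∈ range (K₃ * K₄), ‖Fc x (K₃ * K₄) lam χ i‖ ^ 2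

open scoped Classical in
/-- **GPL** (medium; large conductors, sum over the pairs).  From PAI, CMZ, KIJ, CSF, PLX, CNV.  For `e = 1, 2` CSF with `P = Pr`, `Dp = e |dl|`, `w = om e`, `Ms = Mz`, `F D ω m = ∑_b EgL`, `D₁ = 2NA/x` (natural division; `e |dl| x ≤ 2NA`), `#P ≤ C N (NA/x + 1)` (PAI), `k₁ = C (1 + A²K/x²)`, `k₂` from KIJ.
`F² ≤ K₃ ∑_b EgL²`, `∑_ω EgL² = φ(D)⁻¹ ∑_χ ‖Gc‖²` (PLX), `∑_m ‖Gc‖² = ∑_j ‖Hc‖²` (CNV with `I` = the block `b`, `F i = Fc χ i`). -/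
def GPL_stmt : Prop := ∃ C : ℝ, 0 < C ∧ ∀ om, OmOK om → ∀ x N A K₁ K₃ K₄ R₁ : ℕ, 1 ≤ x → 1 ≤ N → A ≤ x → 1 ≤ K₃ → 1 ≤ K₄ → ∀ lam : ℤ → ℝ,
  ∑ p ∈ Pr x N A K₁, ∑ b ∈ range K₃, ∑ m ∈ Mz x (K₃ * K₄) A p.1 p.2, ∑ e ∈ ({1, 2} : Finset ℕ),
      EgL x K₃ K₄ R₁ lam b m (e * (dl p.1 p.2).natAbs) (om e p.1 p.2)
    ≤ C * √(N * (N * A / x + 1) * (1 + (A : ℝ) ^ 2 * (K₃ * K₄) / x ^ 2)) *
      √(K₃ * ∑ D ∈ Icc 1 (2 * N * A / x), 1 / (Nat.totient D : ℝ) * ∑ χ : DirichletCharacter ℂ D with R₁ < χ.conductor,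
          ∑ b ∈ range K₃, ∑ j ∈ range (2 * (K₃ * K₄)), ‖Hc x K₃ K₄ lam b j χ‖ ^ 2)

/-- **WFN** (medium).  From LAT, WBN, CHX, GPS, GPL, LSM, LSQ.  `L = log x`, `M = 2L`, `Mβ = 3L`; `b₁ = B + 20`, `K₁ = K₃ = ⌈L^(b₁)⌉`, `K₄ = ⌈160 K₁ x²/A²⌉`, `K = K₃ K₄ ≤ L^(2b₁+2) x²/A² ≤ x^(2/3-η)` (`x²/A² ≤ x^(2/3-2η)`), `R₁ = ⌈x^(1+η/2)/A⌉`, `R₀ = ⌈L^(E₀)⌉`, `E₀ = 6 b₁ + 60`, `E = 3 E₀`.
From the hypotheses `x ≤ A √N x^(-η/2)`, `√N ≤ A x^(-η/2)` (so `Siz` holds, `NA/x ≥ 1`).  WBN: `x A`, `x A √N`, `N √N A` are all `≤ N A² x^(-η/2)`.  `1 + A²K/x² ≤ L^(2b₁+3)`, `x²/K ≤ A²`.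
Small conductors (GPS, LSM with `S = x²/(K L^E)`): `C L^(2b₁+3) N · L (R₀ A²/L^E + 4L² A²/R₀ + 4L² x R₁)`, and `x R₁ ≤ 2 x^(2+η/2)/A ≤ A² x^(-η)` since `A³ ≥ x^(2+3η)`.  Large conductors (GPL, LSQ): the product of the two radicands is
`≤ L^(c) N (NA/x) (A²/R₁ + NA/x) x² ≤ L^c (N² A⁴ x^(-η/2) + N³ A²)` and `N³ A² ≤ N² A⁴ x^(-η)`. -/
def WFN_stmt : Prop := ∀ η : ℝ, 0 < η → ∀ B : ℕ, ∃ E : ℕ, ∃ x₀ : ℕ, ∀ x : ℕ, x₀ ≤ x → ∀ (Z : ℕ) (lam : ℤ → ℝ), Real.log x ^ E ≤ Z →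
  LamOK x Z (2 * Real.log x) lam →
  (∀ K : ℕ, 1 ≤ K → (K : ℝ) ≤ (x : ℝ) ^ (2 / 3 - η) → SIh x K (Real.log x ^ E) (x ^ 2 / (K * Real.log x ^ E)) lam) →
  ∀ A N R : ℕ, (x : ℝ) ^ (2 / 3 + η) ≤ A → A ≤ x → (x : ℝ) ^ 2 * (x : ℝ) ^ η ≤ A ^ 2 * N → N * (x : ℝ) ^ η ≤ A ^ 2 →
  1156 * x ^ 2 ≤ R ^ 2 * N → R ^ 2 * N ≤ 2000 * x ^ 2 →
  ∀ β : ℤ × ℤ → ℝ, (∀ z, |β z| ≤ 3 * Real.log x) → WW N R A β lam ≤ N * A ^ 2 / Real.log x ^ B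

/-- **T2N** (short).  From TDW, WFN (with `2B + 50`).  As T2M: Cauchy-Schwarz over `w`; `∑_w τ(nn w)² ≤ C R² (1 + log R)^40`, `R² ≤ 2000 x²/N`. -/
def T2N_stmt : Prop := ∀ η : ℝ, 0 < η → ∀ B : ℕ, ∃ E : ℕ, ∃ x₀ : ℕ, ∀ x : ℕ, x₀ ≤ x → ∀ (Z : ℕ) (lam : ℤ → ℝ), Real.log x ^ E ≤ Z →
  LamOK x Z (2 * Real.log x) lam →
  (∀ K : ℕ, 1 ≤ K → (K : ℝ) ≤ (x : ℝ) ^ (2 / 3 - η) → SIh x K (Real.log x ^ E) (x ^ 2 / (K * Real.log x ^ E)) lam) →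
  ∀ A N R : ℕ, (x : ℝ) ^ (2 / 3 + η) ≤ A → A ≤ x → (x : ℝ) ^ 2 * (x : ℝ) ^ η ≤ A ^ 2 * N → N * (x : ℝ) ^ η ≤ A ^ 2 →
  1156 * x ^ 2 ≤ R ^ 2 * N → R ^ 2 * N ≤ 2000 * x ^ 2 →
  ∀ (β : ℤ × ℤ → ℝ) (α : ℕ → ℝ), (∀ z, |β z| ≤ 3 * Real.log x) → (∀ k, |α k| ≤ #k.divisors) →
  |∑ w ∈ Bx R with w.1 % 2 = 1, ∑ z ∈ ZD N, β z * α (nn w) * lam (lc z w) * ga A (ac z w)| ≤ A * x / Real.log x ^ B

end Pool.Agent.FJ
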